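import Pool.Agent.H.MP_06f7ba_an.H93.Defs

/-!
# MP_06f7ba_an : Baire sets of a compact set of functions depend on countably many coordinates;
extension of a measure to a further set of full outer measure.
-/

namespace MP06f7ba

open Set Filter Topology MeasureTheory

section Dep

variable {ι Y : Type*} {K : Set (ι → Y)}

/-- `B` depends only on the coordinates in `J`. -/
def Dep (J : Set ι) (B : Set ↥K) : Prop :=
  ∀ x y : ↥K, (∀ i ∈ J, x.1 i = y.1 i) → x ∈ B → y ∈ B

theorem Dep.mono {J J' : Set ι} {B : Set ↥K} (h : Dep J B) (hJ : J ⊆ J') : Dep J' B :=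
  fun x y hxy => h x y fun i hi => hxy i (hJ hi)

theorem Dep.compl {J : Set ι} {B : Set ↥K} (h : Dep J B) : Dep J Bᶜ :=
  fun x y hxy hx hy => hx (h y x (fun i hi => (hxy i hi).symm) hy)

variable [TopologicalSpace Y]

theorem dep_of_compact_open {S U : Set ↥K} (hS : IsCompact S) (hU : IsOpen U) (hSU : S ⊆ U) :
    ∃ (V : Set ↥K) (J : Finset ι), S ⊆ V ∧ V ⊆ U ∧ Dep (J : Set ι) V := by
  obtain ⟨W, hW, hWU⟩ := isOpen_induced_iff.1 hU
  have h1 : ∀ x : ↥K, ∃ (O : Set ↥K) (J : Finset ι), x ∈ S → IsOpen O ∧ x ∈ O ∧ O ⊆ U ∧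
      Dep (J : Set ι) O := by
    intro x
    by_cases hx : x ∈ S
    · have hxW : x.1 ∈ W := by
        have : x ∈ Subtype.val ⁻¹' W := by
          rw [hWU]
          exact hSU hx
        exact this
      obtain ⟨I, u, hu1, hu2⟩ := isOpen_pi_iff.1 hW x.1 hxW
      refine ⟨Subtype.val ⁻¹' ((I : Set ι).pi u), I, fun _ => ⟨?_, ?_, ?_, ?_⟩⟩
      · exact (isOpen_set_pi I.finite_toSet fun a ha => (hu1 a ha).1).preimage
          continuous_subtype_val
      · exact fun a ha => (hu1 a ha).2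
      · intro y hy
        rw [← hWU]
        exact hu2 hy
      · intro y z hyz hy i hi
        have := hy i hi
        rw [hyz i hi] at this
        exact this
    · exact ⟨∅, ∅, fun h => absurd h hx⟩
  choose O J hO using h1
  obtain ⟨t, ht1, ht2⟩ := hS.elim_nhds_subcover O fun x hx => (hO x hx).1.mem_nhds (hO x hx).2.1
  classical
  refine ⟨⋃ x ∈ t, O x, t.biUnion J, ht2, ?_, ?_⟩
  · exact Set.iUnion₂_subset fun x hx => (hO x (ht1 x hx)).2.2.1
  · intro y z hyz hy
    obtain ⟨x, hx, hyx⟩ := Set.mem_iUnion₂.1 hy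
    refine Set.mem_iUnion₂.2 ⟨x, hx, (hO x (ht1 x hx)).2.2.2 y z (fun i hi => hyz i ?_) hyx⟩
    exact Finset.mem_coe.2 (Finset.mem_biUnion.2 ⟨x, hx, hi⟩)

theorem dep_of_compact_gdelta {S : Set ↥K} (hS : IsCompact S) (hG : IsGδ S) :
    ∃ J : Set ι, J.Countable ∧ Dep J S := by
  obtain ⟨T, hT1, hT2, rfl⟩ := hG
  have h1 : ∀ U : Set ↥K, ∃ (V : Set ↥K) (J : Finset ι), U ∈ T → ⋂₀ T ⊆ V ∧ V ⊆ U ∧
      Dep (J : Set ι) V := by
    intro U
    by_cases hU : U ∈ T
    · obtain ⟨V, J, h⟩ := dep_of_compact_open hS (hT1 U hU) (Set.sInter_subset_of_mem hU)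
      exact ⟨V, J, fun _ => h⟩
    · exact ⟨∅, ∅, fun h => absurd h hU⟩
  choose V J hVJ using h1
  refine ⟨⋃ U ∈ T, (J U : Set ι), hT2.biUnion fun U _ => (J U).countable_toSet, ?_⟩
  intro x y hxy hx U hU
  refine (hVJ U hU).2.1 ((hVJ U hU).2.2 x y (fun i hi => hxy i ?_) ((hVJ U hU).1 hx))
  exact Set.mem_iUnion₂.2 ⟨U, hU, hi⟩

/-- Every Baire set depends on countably many coordinates. -/
theorem dep_of_baire {B : Set ↥K} (hB : MeasurableSet[baire ↥K] B) :
    ∃ J : Set ι, J.Countable ∧ Dep J B := by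
  refine MeasurableSpace.generateFrom_induction _
    (fun (B : Set ↥K) _ => ∃ J : Set ι, J.Countable ∧ Dep J B) ?_ ?_ ?_ ?_ B hB
  · intro S hS _
    exact dep_of_compact_gdelta hS.1 hS.2
  · exact ⟨∅, Set.countable_empty, fun _ _ _ h => h⟩
  · rintro S _ ⟨J, h1, h2⟩
    exact ⟨J, h1, h2.compl⟩
  · intro s _ hs
    choose J h1 h2 using hs
    refine ⟨⋃ n, J n, Set.countable_iUnion h1, ?_⟩
    intro x y hxy hx
    obtain ⟨n, hn⟩ := Set.mem_iUnion.1 hx
    exact Set.mem_iUnion.2 ⟨n, h2 n x y (fun i hi => hxy i (Set.mem_iUnion.2 ⟨n, hi⟩)) hn⟩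

end Dep

theorem le_adjoin {X : Type*} (ℬ : MeasurableSpace X) (E : Set X) : ℬ ≤ adjoin ℬ E :=
  fun _ hs => MeasurableSpace.measurableSet_generateFrom (Or.inl hs)

theorem measurableSet_adjoin {X : Type*} (ℬ : MeasurableSpace X) (E : Set X) :
    MeasurableSet[adjoin ℬ E] E :=
  MeasurableSpace.measurableSet_generateFrom (Or.inr rfl)

/-- Extension of a probability measure to a set of full outer measure. -/
theorem exists_extension {X : Type*} (ℬ : MeasurableSpace X) (E : Set X) (μ₀ : @Measure X ℬ)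
    (hp : @IsProbabilityMeasure X ℬ μ₀)
    (h : ∀ B, MeasurableSet[ℬ] B → Disjoint B E → μ₀ B = 0) :
    ∃ σ : @Measure X (adjoin ℬ E), σ E = 1 ∧ ∀ B, MeasurableSet[ℬ] B → σ B = μ₀ B := by
  -- the outer measure
  let o : OuterMeasure X := OuterMeasure.restrict E (@Measure.toOuterMeasure X ℬ μ₀)
  have ho : ∀ S, o S = μ₀ (S ∩ E) := fun S => OuterMeasure.restrict_apply _ _ _
  have hE : ∀ B, MeasurableSet[ℬ] B → μ₀ (B ∩ E) = μ₀ B := by
    intro B hB
    refine le_antisymm (measure_mono Set.inter_subset_left) ?_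
    let B' := @toMeasurable X ℬ μ₀ (B ∩ E)
    have hB' : MeasurableSet[ℬ] B' := @measurableSet_toMeasurable X ℬ μ₀ _
    have hsub : B ∩ E ⊆ B' := subset_toMeasurable μ₀ _
    have h1 : μ₀ (B \ B') = 0 := by
      refine h _ (MeasurableSet.diff hB hB') ?_
      rw [Set.disjoint_left]
      intro x hx hxE
      exact hx.2 (hsub ⟨hx.1, hxE⟩)
    calc μ₀ B ≤ μ₀ (B' ∪ (B \ B')) := measure_mono fun x hx => by
          by_cases hx' : x ∈ B'
          · exact Or.inl hx'
          · exact Or.inr ⟨hx, hx'⟩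
      _ ≤ μ₀ B' + μ₀ (B \ B') := measure_union_le _ _
      _ = μ₀ (B ∩ E) := by rw [h1, add_zero, measure_toMeasurable]
  have hcar : adjoin ℬ E ≤ o.caratheodory := by
    refine MeasurableSpace.generateFrom_le ?_
    rintro S (hS | hS)
    · rw [OuterMeasure.isCaratheodory_iff]
      intro T
      rw [ho, ho, ho]
      have h2 : μ₀ ((T ∩ E) ∩ S) + μ₀ ((T ∩ E) \ S) = μ₀ (T ∩ E) :=
        measure_inter_add_sdiff (T ∩ E) hS
      rw [← h2]
      congr 2
      · ext x; simp only [Set.mem_inter_iff]; tauto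
      · ext x; simp only [Set.mem_inter_iff, Set.mem_sdiff]; tauto
    · rw [Set.mem_singleton_iff] at hS
      subst hS
      rw [OuterMeasure.isCaratheodory_iff]
      intro T
      rw [ho, ho, ho]
      have h3 : T \ S ∩ S = ∅ := by
        ext x; simp
      have h4 : T ∩ S ∩ S = T ∩ S := by
        ext x; simp
      rw [h3, h4, measure_empty, add_zero]
  refine ⟨@OuterMeasure.toMeasure X (adjoin ℬ E) o hcar, ?_, ?_⟩
  · rw [@toMeasure_apply X (adjoin ℬ E) o hcar E (measurableSet_adjoin ℬ E), ho, Set.inter_self]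
    have := hE Set.univ MeasurableSet.univ
    rw [Set.univ_inter] at this
    rw [this]
    exact hp.measure_univ
  · intro B hB
    rw [@toMeasure_apply X (adjoin ℬ E) o hcar B (le_adjoin ℬ E B hB), ho]
    exact hE B hB

end MP06f7ba
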