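import Mathlib

/-!
# MP_06f7ba_an : Hahn-Banach lemmas for plain functionals `V → ℝ`.
-/

namespace MP06f7ba

open Set Filter Topology

section HB

variable {V : Type*} [NormedAddCommGroup V] [NormedSpace ℝ V]

theorem lin_sub {φ : V → ℝ} (hφ : IsLinearMap ℝ φ) (x y : V) : φ (x - y) = φ x - φ y :=
  hφ.map_sub x y

/-- A linear functional bounded by the norm is continuous. -/
theorem lin_continuous {φ : V → ℝ} (hφ : IsLinearMap ℝ φ) (hb : ∀ x, |φ x| ≤ ‖x‖) :
    Continuous φ := by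
  have : LipschitzWith 1 φ := by
    refine LipschitzWith.of_dist_le_mul fun x y => ?_
    rw [Real.dist_eq, ← hφ.map_sub, NNReal.coe_one, one_mul, dist_eq_norm]
    exact hb _
  exact this.continuous

omit [NormedSpace ℝ V] in
/-- A sublinear functional bounded by the norm is continuous. -/
theorem sublin_continuous {p : V → ℝ} (hadd : ∀ x y, p (x + y) ≤ p x + p y)
    (hnorm : ∀ x, p x ≤ ‖x‖) : Continuous p := by
  have key : ∀ x y, p x - p y ≤ ‖x - y‖ := by
    intro x y
    have h1 := hadd (x - y) y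
    rw [sub_add_cancel] at h1
    linarith [hnorm (x - y)]
  have : LipschitzWith 1 p := by
    refine LipschitzWith.of_dist_le_mul fun x y => ?_
    rw [Real.dist_eq, NNReal.coe_one, one_mul, dist_eq_norm, abs_le]
    constructor
    · have := key y x
      rw [norm_sub_rev] at this
      linarith
    · exact key x y
  exact this.continuous

/-- The closure of a set closed under addition and rational scaling, as a submodule. -/
def ratClosure (G : Set V) (h0 : (0 : V) ∈ G) (hGadd : ∀ x ∈ G, ∀ y ∈ G, x + y ∈ G)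
    (hGsmul : ∀ (r : ℚ), ∀ x ∈ G, (r : ℝ) • x ∈ G) : Submodule ℝ V where
  carrier := closure G
  add_mem' := by
    intro a b ha hb
    exact map_mem_closure₂ continuous_add ha hb hGadd
  zero_mem' := subset_closure h0
  smul_mem' := by
    intro c x hx
    have hc : c ∈ closure (Set.range ((↑) : ℚ → ℝ)) := by
      rw [Rat.denseRange_cast.closure_range]; trivial
    refine map_mem_closure₂ (f := fun (c : ℝ) (x : V) => c • x) continuous_smul hc hx ?_
    rintro _ ⟨r, rfl⟩ y hy
    exact hGsmul r y hy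

/-- **Hahn-Banach**, relative to a set closed under addition and rational scaling. -/
theorem hahnBanach_rat (p : V → ℝ) (hhom : ∀ c : ℝ, 0 < c → ∀ x, p (c • x) = c * p x)
    (hadd : ∀ x y, p (x + y) ≤ p x + p y) (hnorm : ∀ x, p x ≤ ‖x‖)
    (G : Set V) (h0 : (0 : V) ∈ G) (hGadd : ∀ x ∈ G, ∀ y ∈ G, x + y ∈ G)
    (hGsmul : ∀ (r : ℚ), ∀ x ∈ G, (r : ℝ) • x ∈ G)
    (φ : V → ℝ) (hφ : IsLinearMap ℝ φ) (hφn : ∀ x, |φ x| ≤ ‖x‖)
    (hle : ∀ x ∈ G, φ x ≤ p x) :
    ∃ Λ : V → ℝ, IsLinearMap ℝ Λ ∧ (∀ x, Λ x ≤ p x) ∧ ∀ x ∈ G, Λ x = φ x := by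
  let W := ratClosure G h0 hGadd hGsmul
  let f : V →ₗ.[ℝ] ℝ := ⟨W, (IsLinearMap.mk' φ hφ).comp W.subtype⟩
  have hW : ∀ x ∈ closure G, φ x ≤ p x := by
    intro x hx
    have hcl : IsClosed {x | φ x ≤ p x} :=
      isClosed_le (lin_continuous hφ hφn) (sublin_continuous hadd hnorm)
    exact (hcl.closure_subset_iff.2 hle) hx
  obtain ⟨g, hg1, hg2⟩ := exists_extension_of_le_sublinear f p hhom hadd
    (fun x => hW x.1 x.2)
  refine ⟨g, g.isLinear, hg2, fun x hx => ?_⟩
  have := hg1 ⟨x, subset_closure hx⟩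
  exact this

end HB

end MP06f7ba
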