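import Mathlib

/-!
# MP_06f7ba_an : the definitions used in the statement

`ℓ^∞(Γ)`, invariant means, extreme points, Baire sets, Choquet decompositions and the metric
space `L²(m)` (through its Cauchy sequences), exactly as in the problem.
-/

namespace MP06f7ba

open Set Filter Topology MeasureTheory

/-- The complex vector space of bounded functions `Γ → ℂ`, as a subspace of `Γ → ℂ`. -/
def linfSub (Γ : Type*) : Submodule ℂ (Γ → ℂ) where
  carrier := {f | ∃ M : ℝ, ∀ x, ‖f x‖ ≤ M}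
  add_mem' := by
    rintro f g ⟨M, hM⟩ ⟨N, hN⟩
    exact ⟨M + N, fun x => (norm_add_le _ _).trans (add_le_add (hM x) (hN x))⟩
  zero_mem' := ⟨0, fun x => by simp⟩
  smul_mem' := by
    rintro c f ⟨M, hM⟩
    refine ⟨‖c‖ * M, fun x => ?_⟩
    rw [Pi.smul_apply, norm_smul]
    exact mul_le_mul_of_nonneg_left (hM x) (norm_nonneg c)

/-- `ℓ^∞(Γ)`: the type of bounded functions `Γ → ℂ`. -/
abbrev Linf (Γ : Type*) : Type _ := ↥(linfSub Γ)

/-- The constant function `1_Γ`. -/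
def oneL (Γ : Type*) : Linf Γ := ⟨fun _ => 1, 1, fun _ => by simp⟩

/-- The translate `(τ_γ f)(x) = f (x - γ)`. -/
def transl {Γ : Type*} [AddCommGroup Γ] (γ : Γ) (f : Linf Γ) : Linf Γ :=
  ⟨fun x => f.1 (x - γ), f.2.imp fun _ hM x => hM (x - γ)⟩

/-- The indicator function `1_C` of a set `C ⊆ Γ`. -/
noncomputable def chi {Γ : Type*} (C : Set Γ) : Linf Γ :=
  ⟨C.indicator fun _ => 1, 1, fun x => by
    by_cases h : x ∈ C
    · simp [Set.indicator_of_mem h]
    · simp [Set.indicator_of_notMem h]⟩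

/-- The pointwise product `f g`. -/
def mulL {Γ : Type*} (f g : Linf Γ) : Linf Γ :=
  ⟨fun x => f.1 x * g.1 x, by
    obtain ⟨M, hM⟩ := f.2
    obtain ⟨N, hN⟩ := g.2
    refine ⟨M * N, fun x => ?_⟩
    rw [norm_mul]
    exact mul_le_mul (hM x) (hN x) (norm_nonneg _) ((norm_nonneg _).trans (hM x))⟩

/-- The function `|f - g|²`. -/
noncomputable def sqDiff {Γ : Type*} (f g : Linf Γ) : Linf Γ :=
  ⟨fun x => ((‖f.1 x - g.1 x‖ ^ 2 : ℝ) : ℂ), by
    obtain ⟨M, hM⟩ := f.2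
    obtain ⟨N, hN⟩ := g.2
    refine ⟨(M + N) ^ 2, fun x => ?_⟩
    have h1 : ‖f.1 x - g.1 x‖ ≤ M + N := (norm_sub_le _ _).trans (add_le_add (hM x) (hN x))
    rw [Complex.norm_real, norm_pow, norm_norm]
    exact pow_le_pow_left₀ (norm_nonneg _) h1 2⟩

/-- A mean on `ℓ^∞(Γ)`: a linear functional with `m(f) ≥ 0` for `f ≥ 0` and `m(1_Γ) = 1`
(`z ≥ 0` for a complex number `z` means: `z` is a nonnegative real number). -/
structure IsMean {Γ : Type*} (m : Linf Γ → ℂ) : Prop where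
  linear : IsLinearMap ℂ m
  nonneg : ∀ f : Linf Γ, (∀ x, 0 ≤ (f.1 x).re ∧ (f.1 x).im = 0) → 0 ≤ (m f).re ∧ (m f).im = 0
  one : m (oneL Γ) = 1

/-- The set `M_τ(Γ)` of invariant means. As a subset of `Linf Γ → ℂ` it carries the topology of
pointwise convergence on `ℓ^∞(Γ)`, that is, the weak-* topology. -/
def InvMeans (Γ : Type*) [AddCommGroup Γ] : Set (Linf Γ → ℂ) :=
  {m | IsMean m ∧ ∀ γ f, m (transl γ f) = m f}

/-- The set `M_τ^ext(Γ)` of extreme points of `M_τ(Γ)`. -/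
noncomputable def ExtMeans (Γ : Type*) [AddCommGroup Γ] : Set ↥(InvMeans Γ) :=
  {ν | (ν : Linf Γ → ℂ) ∈ Set.extremePoints ℝ (InvMeans Γ)}

/-- The Baire sets of a compact space `X`: the σ-algebra generated by the compact `G_δ` sets. -/
@[instance_reducible] def baire (X : Type*) [TopologicalSpace X] : MeasurableSpace X :=
  MeasurableSpace.generateFrom {S : Set X | IsCompact S ∧ IsGδ S}

/-- The σ-algebra generated by the sets of `ℬ` and one further set `E`. -/
@[instance_reducible] def adjoin {X : Type*} (ℬ : MeasurableSpace X) (E : Set X) :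
    MeasurableSpace X :=
  MeasurableSpace.generateFrom ({S | MeasurableSet[ℬ] S} ∪ {E})

/-- The σ-algebra of subsets of `M_τ(Γ)` generated by `M_τ^ext(Γ)` and the Baire sets. -/
@[instance_reducible] noncomputable def choquetAlg (Γ : Type*) [AddCommGroup Γ] :
    MeasurableSpace ↥(InvMeans Γ) :=
  adjoin (baire ↥(InvMeans Γ)) (ExtMeans Γ)

/-- `σ` is a Choquet decomposition of the invariant mean `m`. -/
structure IsChoquet {Γ : Type*} [AddCommGroup Γ] (m : ↥(InvMeans Γ))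
    (σ : @Measure ↥(InvMeans Γ) (choquetAlg Γ)) : Prop where
  total : σ Set.univ = 1
  ext : σ (ExtMeans Γ) = 1
  meas : ∀ f : Linf Γ, Measurable[choquetAlg Γ] fun ν : ↥(InvMeans Γ) => ν.1 f
  repr : ∀ f : Linf Γ, m.1 f = ∫ ν, ν.1 f ∂σ

/-- The distance `d(f,g) = m(|f - g|²)^{1/2}`. -/
noncomputable def l2dist {Γ : Type*} (m : Linf Γ → ℂ) (f g : Linf Γ) : ℝ :=
  Real.sqrt (m (sqDiff f g)).re

/-- `(f_n)` is a `d`-Cauchy sequence, i.e. it represents an element `w` of `L²(m)`. -/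
def IsL2Cauchy {Γ : Type*} (m : Linf Γ → ℂ) (f : ℕ → Linf Γ) : Prop :=
  ∀ ε : ℝ, 0 < ε → ∃ N : ℕ, ∀ i ≥ N, ∀ j ≥ N, l2dist m (f i) (f j) < ε

end MP06f7ba
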