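import Pool.Agent.H.MP_06f7ba_an.H93.Means
import Pool.Agent.H.MP_06f7ba_an.H93.Defs

/-!
# MP_06f7ba_an : from real to complex functionals
-/

namespace MP06f7ba

open Set Filter Topology BoundedContinuousFunction MeasureTheory

variable {Γ : Type*} [AddCommGroup Γ] [TopologicalSpace Γ] [DiscreteTopology Γ]

omit [AddCommGroup Γ] [TopologicalSpace Γ] [DiscreteTopology Γ] in
theorem Linf_ext {f g : Linf Γ} (h : ∀ x, f.1 x = g.1 x) : f = g := Subtype.ext (funext h)

/-- real part. -/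
noncomputable def reB (f : Linf Γ) : Γ →ᵇ ℝ :=
  BoundedContinuousFunction.ofNormedAddCommGroupDiscrete (fun x => (f.1 x).re) f.2.choose
    (fun x => (Complex.abs_re_le_norm _).trans (f.2.choose_spec x))

/-- imaginary part. -/
noncomputable def imB (f : Linf Γ) : Γ →ᵇ ℝ :=
  BoundedContinuousFunction.ofNormedAddCommGroupDiscrete (fun x => (f.1 x).im) f.2.choose
    (fun x => (Complex.abs_im_le_norm _).trans (f.2.choose_spec x))

/-- complexification. -/
noncomputable def toL (g : Γ →ᵇ ℝ) : Linf Γ :=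
  ⟨fun x => (g x : ℂ), ‖g‖, fun x => by
    rw [Complex.norm_real]
    exact g.norm_coe_le_norm x⟩

omit [AddCommGroup Γ] in
theorem reB_apply (f : Linf Γ) (x : Γ) : reB f x = (f.1 x).re := rfl

omit [AddCommGroup Γ] in
theorem imB_apply (f : Linf Γ) (x : Γ) : imB f x = (f.1 x).im := rfl

omit [AddCommGroup Γ] [DiscreteTopology Γ] in
theorem toL_apply (g : Γ →ᵇ ℝ) (x : Γ) : (toL g).1 x = (g x : ℂ) := rfl

omit [AddCommGroup Γ] in
theorem Linf_decomp (f : Linf Γ) : f = toL (reB f) + Complex.I • toL (imB f) := by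
  refine Linf_ext fun x => ?_
  have : (toL (reB f) + Complex.I • toL (imB f)).1 x =
      ((f.1 x).re : ℂ) + Complex.I * ((f.1 x).im : ℂ) := rfl
  rw [this, mul_comm]
  exact (Complex.re_add_im _).symm

/-- From real to complex functionals. -/
noncomputable def Phi (ν : (Γ →ᵇ ℝ) → ℝ) : Linf Γ → ℂ :=
  fun f => (ν (reB f) : ℂ) + Complex.I * (ν (imB f) : ℂ)

/-- From complex to real functionals. -/
noncomputable def Psi (M : Linf Γ → ℂ) : (Γ →ᵇ ℝ) → ℝ := fun g => (M (toL g)).re

omit [AddCommGroup Γ] in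
theorem reB_toL (g : Γ →ᵇ ℝ) : reB (toL g) = g := by
  ext x
  rw [reB_apply, toL_apply, Complex.ofReal_re]

omit [AddCommGroup Γ] in
theorem imB_toL (g : Γ →ᵇ ℝ) : imB (toL g) = 0 := by
  ext x
  rw [imB_apply, toL_apply, Complex.ofReal_im]
  rfl

theorem Phi_mem {ν : (Γ →ᵇ ℝ) → ℝ} (hν : ν ∈ InvMean Γ) : Phi ν ∈ InvMeans Γ := by
  have hl := hν.1.1
  refine ⟨⟨⟨?_, ?_⟩, ?_, ?_⟩, ?_⟩
  · intro f g
    have e1 : reB (f + g) = reB f + reB g := by
      ext x; rfl
    have e2 : imB (f + g) = imB f + imB g := by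
      ext x; rfl
    simp only [Phi, e1, e2, hl.map_add]
    push_cast
    ring
  · intro c f
    have e1 : reB (c • f) = c.re • reB f - c.im • imB f := by
      ext x
      have : (c • f).1 x = c * f.1 x := rfl
      rw [reB_apply, this, Complex.mul_re]
      rfl
    have e2 : imB (c • f) = c.re • imB f + c.im • reB f := by
      ext x
      have : (c • f).1 x = c * f.1 x := rfl
      rw [imB_apply, this, Complex.mul_im]
      rfl
    simp only [Phi, e1, e2, hl.map_add, hl.map_sub, hl.map_smul, smul_eq_mul]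
    apply Complex.ext
    · simp
    · simp
  · intro f hf
    have e1 : imB f = 0 := by
      ext x
      rw [imB_apply, (hf x).2]
      rfl
    have e2 : Phi ν f = (ν (reB f) : ℂ) := by
      simp [Phi, e1, hl.map_zero]
    rw [e2, Complex.ofReal_re, Complex.ofReal_im]
    exact ⟨hν.1.2.1 _ fun x => (hf x).1, rfl⟩
  · have e1 : reB (oneL Γ) = 1 := by
      ext x
      have : (oneL Γ).1 x = 1 := rfl
      rw [reB_apply, this, Complex.one_re]
      rfl
    have e2 : imB (oneL Γ) = 0 := by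
      ext x
      have : (oneL Γ).1 x = 1 := rfl
      rw [imB_apply, this, Complex.one_im]
      rfl
    simp [Phi, e1, e2, hl.map_zero, hν.1.2.2]
  · intro γ f
    have e1 : reB (transl γ f) = tr (-γ) (reB f) := by
      ext x
      rw [reB_apply, tr_apply, reB_apply, ← sub_eq_add_neg]
      rfl
    have e2 : imB (transl γ f) = tr (-γ) (imB f) := by
      ext x
      rw [imB_apply, tr_apply, imB_apply, ← sub_eq_add_neg]
      rfl
    simp only [Phi, e1, e2, hν.2]

omit [AddCommGroup Γ] in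
theorem im_toL {M : Linf Γ → ℂ} (hM : IsMean M) (g : Γ →ᵇ ℝ) : (M (toL g)).im = 0 := by
  have h1 := hM.nonneg (toL (g + BoundedContinuousFunction.const Γ ‖g‖)) (fun x => by
    rw [toL_apply, Complex.ofReal_re, Complex.ofReal_im]
    refine ⟨?_, rfl⟩
    rw [BoundedContinuousFunction.add_apply, BoundedContinuousFunction.const_apply]
    have := (_root_.abs_le.1 (g.norm_coe_le_norm x)).1
    linarith)
  have h2 : toL (g + BoundedContinuousFunction.const Γ ‖g‖) = toL g + (‖g‖ : ℂ) • oneL Γ := by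
    refine Linf_ext fun x => ?_
    have e1 : (toL g + (‖g‖ : ℂ) • oneL Γ).1 x = (g x : ℂ) + (‖g‖ : ℂ) * 1 := rfl
    have e2 : (toL (g + BoundedContinuousFunction.const Γ ‖g‖)).1 x =
        ((g x + ‖g‖ : ℝ) : ℂ) := rfl
    rw [e1, e2]
    push_cast
    ring
  have h3 := h1.2
  rw [h2, hM.linear.map_add, hM.linear.map_smul, hM.one] at h3
  simpa using h3

theorem Psi_mem {M : Linf Γ → ℂ} (hM : M ∈ InvMeans Γ) : Psi M ∈ InvMean Γ := by
  have hl := hM.1.linear
  refine ⟨⟨⟨?_, ?_⟩, ?_, ?_⟩, ?_⟩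
  · intro f g
    have e1 : toL (f + g) = toL f + toL g := by
      refine Linf_ext fun x => ?_
      exact Complex.ofReal_add _ _
    simp only [Psi, e1, hl.map_add, Complex.add_re]
  · intro c f
    have e1 : toL (c • f) = (c : ℂ) • toL f := by
      refine Linf_ext fun x => ?_
      exact Complex.ofReal_mul _ _
    simp only [Psi, e1, hl.map_smul, smul_eq_mul, Complex.re_ofReal_mul]
  · intro f hf
    exact (hM.1.nonneg (toL f) fun x => by
      rw [toL_apply, Complex.ofReal_re, Complex.ofReal_im]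
      exact ⟨hf x, rfl⟩).1
  · have e1 : toL (1 : Γ →ᵇ ℝ) = oneL Γ := by
      refine Linf_ext fun x => ?_
      exact Complex.ofReal_one
    simp only [Psi, e1, hM.1.one, Complex.one_re]
  · intro γ f
    have e1 : toL (tr γ f) = transl (-γ) (toL f) := by
      refine Linf_ext fun x => ?_
      have e2 : (transl (-γ) (toL f)).1 x = (f (x - -γ) : ℂ) := rfl
      rw [e2, toL_apply, tr_apply, sub_neg_eq_add]
    simp only [Psi, e1, hM.2]

omit [AddCommGroup Γ] in
theorem Psi_Phi (ν : (Γ →ᵇ ℝ) → ℝ) (h0 : ν 0 = 0) : Psi (Phi ν) = ν := by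
  funext g
  simp [Psi, Phi, reB_toL, imB_toL, h0]

theorem Phi_Psi {M : Linf Γ → ℂ} (hM : M ∈ InvMeans Γ) : Phi (Psi M) = M := by
  funext f
  have h1 : ∀ g : Γ →ᵇ ℝ, ((Psi M g : ℝ) : ℂ) = M (toL g) := by
    intro g
    apply Complex.ext
    · rw [Complex.ofReal_re]; rfl
    · rw [Complex.ofReal_im, im_toL hM.1]
  conv_rhs => rw [Linf_decomp f]
  rw [hM.1.linear.map_add, hM.1.linear.map_smul, Phi, h1, h1, smul_eq_mul]

omit [AddCommGroup Γ] in
theorem continuous_Phi : Continuous (Phi : ((Γ →ᵇ ℝ) → ℝ) → (Linf Γ → ℂ)) := by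
  refine continuous_pi fun f => ?_
  exact (Complex.continuous_ofReal.comp (continuous_apply _)).add
    (continuous_const.mul (Complex.continuous_ofReal.comp (continuous_apply _)))

theorem image_Phi : Phi '' (InvMean Γ) = InvMeans Γ := by
  ext M
  constructor
  · rintro ⟨ν, hν, rfl⟩
    exact Phi_mem hν
  · intro hM
    exact ⟨Psi M, Psi_mem hM, Phi_Psi hM⟩

theorem isCompact_InvMean : IsCompact (InvMean Γ) :=
  isCompact_Mean.of_isClosed_subset isClosed_InvMean fun _ h => h.1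

theorem isCompact_InvMeans : IsCompact (InvMeans Γ) := by
  rw [← image_Phi]
  exact isCompact_InvMean.image continuous_Phi

/-- `Phi` maps extreme points to extreme points. -/
theorem Phi_ext {ν : (Γ →ᵇ ℝ) → ℝ} (hν : ν ∈ Set.extremePoints ℝ (InvMean Γ)) :
    Phi ν ∈ Set.extremePoints ℝ (InvMeans Γ) := by
  refine ⟨Phi_mem hν.1, ?_⟩
  intro M₁ h₁ M₂ h₂ hseg
  obtain ⟨s, t, hs, ht, hst, hM⟩ := hseg
  have h1 : ν ∈ openSegment ℝ (Psi M₁) (Psi M₂) := by
    refine ⟨s, t, hs, ht, hst, ?_⟩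
    have h2 : Psi (s • M₁ + t • M₂) = s • Psi M₁ + t • Psi M₂ := by
      funext g
      have e1 : (s • M₁ + t • M₂) (toL g) = (s : ℂ) * M₁ (toL g) + (t : ℂ) * M₂ (toL g) := rfl
      have e2 : (s • Psi M₁ + t • Psi M₂) g = s * (M₁ (toL g)).re + t * (M₂ (toL g)).re := rfl
      rw [e2, Psi, e1, Complex.add_re, Complex.re_ofReal_mul, Complex.re_ofReal_mul]
    rw [← h2, hM]
    exact Psi_Phi ν hν.1.1.1.map_zero
  have h3 : Psi M₁ = ν := hν.2 (Psi_mem h₁) (Psi_mem h₂) h1
  rw [← h3, Phi_Psi h₁]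

end MP06f7ba
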