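import Pool.Agent.H.MP_06f7ba_an.H93.Tree

/-!
# MP_06f7ba_an : extreme points of `𝒟` lie in the `G_δ`-closure of the extreme points of `K`
-/

namespace MP06f7ba

open Set Filter Topology

/-- Countable closure under a countably-valued binary operation. -/
theorem exists_countable_closure {α : Type*} (h : α → α → Set α)
    (hc : ∀ x y, (h x y).Countable) (S : Set α) (hS : S.Countable) :
    ∃ G : Set α, S ⊆ G ∧ G.Countable ∧ ∀ x ∈ G, ∀ y ∈ G, h x y ⊆ G := by
  let step : Set α → Set α := fun T => T ∪ ⋃ x ∈ T, ⋃ y ∈ T, h x y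
  let Gn : ℕ → Set α := fun n => step^[n] S
  have hGn : ∀ n, (Gn n).Countable := by
    intro n
    induction n with
    | zero => exact hS
    | succ n ih =>
      have : Gn (n + 1) = step (Gn n) := Function.iterate_succ_apply' step n S
      rw [this]
      exact ih.union (ih.biUnion fun x _ => ih.biUnion fun y _ => hc x y)
  have hmono : Monotone Gn := by
    refine monotone_nat_of_le_succ fun n => ?_
    have : Gn (n + 1) = step (Gn n) := Function.iterate_succ_apply' step n S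
    rw [this]
    exact Set.subset_union_left
  refine ⟨⋃ n, Gn n, Set.subset_iUnion Gn 0, Set.countable_iUnion hGn, ?_⟩
  intro x hx y hy
  obtain ⟨i, hi⟩ := Set.mem_iUnion.1 hx
  obtain ⟨j, hj⟩ := Set.mem_iUnion.1 hy
  have hxk : x ∈ Gn (max i j) := hmono (le_max_left i j) hi
  have hyk : y ∈ Gn (max i j) := hmono (le_max_right i j) hj
  refine subset_trans ?_ (Set.subset_iUnion Gn (max i j + 1))
  have : Gn (max i j + 1) = step (Gn (max i j)) := Function.iterate_succ_apply' step _ S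
  rw [this]
  refine subset_trans ?_ Set.subset_union_right
  intro z hz
  simp only [Set.mem_iUnion]
  exact ⟨x, hxk, y, hyk, hz⟩

variable {V : Type*} [NormedAddCommGroup V] [NormedSpace ℝ V] {κ : Type*} [DecidableEq κ]

omit [NormedSpace ℝ V] in
/-- A finitary reflection of extremality in a compact set. -/
theorem extreme_reflect [Module ℝ V] {Q : Set (V → ℝ)} (hQ : IsCompact Q) {m : V → ℝ}
    (hm : m ∈ Set.extremePoints ℝ Q) (f : V) (ε : ℝ) (hε : 0 < ε) :
    ∃ G : Finset V, ∀ m₁ ∈ Q, ∀ m₂ ∈ Q, ∀ t ∈ Set.Icc (0 : ℝ) 1,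
      (∀ g ∈ G, t * m₁ g + (1 - t) * m₂ g = m g) → t * (1 - t) * |m₁ f - m₂ f| < ε := by
  by_contra hcon
  push Not at hcon
  let Z : Finset V → Set ((V → ℝ) × (V → ℝ) × ℝ) := fun G =>
    (Q ×ˢ (Q ×ˢ Set.Icc (0 : ℝ) 1)) ∩ {p | (∀ g ∈ G, p.2.2 * p.1 g + (1 - p.2.2) * p.2.1 g = m g) ∧
      ε ≤ p.2.2 * (1 - p.2.2) * |p.1 f - p.2.1 f|}
  have hcl : ∀ G : Finset V, IsClosed {p : (V → ℝ) × (V → ℝ) × ℝ |
      (∀ g ∈ G, p.2.2 * p.1 g + (1 - p.2.2) * p.2.1 g = m g) ∧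
      ε ≤ p.2.2 * (1 - p.2.2) * |p.1 f - p.2.1 f|} := by
    intro G
    have c1 : ∀ g : V, Continuous fun p : (V → ℝ) × (V → ℝ) × ℝ => p.1 g := fun g =>
      (continuous_apply g).comp continuous_fst
    have c2 : ∀ g : V, Continuous fun p : (V → ℝ) × (V → ℝ) × ℝ => p.2.1 g := fun g =>
      (continuous_apply g).comp (continuous_fst.comp continuous_snd)
    have c3 : Continuous fun p : (V → ℝ) × (V → ℝ) × ℝ => p.2.2 :=
      continuous_snd.comp continuous_snd
    have e1 : IsClosed {p : (V → ℝ) × (V → ℝ) × ℝ |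
        ∀ g ∈ G, p.2.2 * p.1 g + (1 - p.2.2) * p.2.1 g = m g} := by
      simp only [Set.ofPred_forall]
      refine isClosed_iInter fun g => isClosed_iInter fun _ => ?_
      refine isClosed_eq ?_ continuous_const
      exact (c3.mul (c1 g)).add ((continuous_const.sub c3).mul (c2 g))
    have e2 : IsClosed {p : (V → ℝ) × (V → ℝ) × ℝ |
        ε ≤ p.2.2 * (1 - p.2.2) * |p.1 f - p.2.1 f|} := by
      refine isClosed_le continuous_const ?_
      exact (c3.mul (continuous_const.sub c3)).mul ((c1 f).sub (c2 f)).abs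
    exact e1.inter e2
  have hcomp : IsCompact (Q ×ˢ (Q ×ˢ Set.Icc (0 : ℝ) 1)) := hQ.prod (hQ.prod isCompact_Icc)
  have hZ : (⋂ G, Z G).Nonempty := by
    refine IsCompact.nonempty_iInter_of_directed_nonempty_isCompact_isClosed Z ?_ ?_ ?_ ?_
    · intro G₁ G₂
      classical
      refine ⟨G₁ ∪ G₂, ?_, ?_⟩
      · rintro p ⟨h1, h2, h3⟩
        exact ⟨h1, fun g hg => h2 g (Finset.mem_union_left _ hg), h3⟩
      · rintro p ⟨h1, h2, h3⟩
        exact ⟨h1, fun g hg => h2 g (Finset.mem_union_right _ hg), h3⟩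
    · intro G
      obtain ⟨m₁, h1, m₂, h2, t, h3, h4, h5⟩ := hcon G
      exact ⟨(m₁, m₂, t), ⟨h1, h2, h3⟩, h4, h5⟩
    · exact fun G => hcomp.inter_right (hcl G)
    · exact fun G => hcomp.isClosed.inter (hcl G)
  obtain ⟨⟨m₁, m₂, t⟩, hp⟩ := hZ
  rw [Set.mem_iInter] at hp
  obtain ⟨⟨h1, h2, h3⟩, -, h5⟩ := hp ∅
  simp only at h1 h2 h3 h5
  have h4 : ∀ g, t * m₁ g + (1 - t) * m₂ g = m g := fun g =>
    (hp {g}).2.1 g (Finset.mem_singleton_self g)
  have ht0 : t ≠ 0 := by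
    rintro rfl
    simp at h5
    linarith
  have ht1 : t ≠ 1 := by
    rintro rfl
    simp at h5
    linarith
  have htp : 0 < t := lt_of_le_of_ne h3.1 (Ne.symm ht0)
  have htq : 0 < 1 - t := sub_pos.2 (lt_of_le_of_ne h3.2 ht1)
  have hseg : m ∈ openSegment ℝ m₁ m₂ := by
    refine ⟨t, 1 - t, htp, htq, by ring, ?_⟩
    ext g
    simp only [Pi.add_apply, Pi.smul_apply, smul_eq_mul]
    exact h4 g
  have e1 : m₁ = m := hm.2 h1 h2 hseg
  have e2 : m₂ = m := hm.2 h2 h1 (by rw [openSegment_symm]; exact hseg)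
  rw [e1, e2] at h5
  simp at h5
  linarith

namespace FaceData

variable (X : FaceData V κ) [Uncountable κ]

/-- **Main abstract lemma.** Any extreme point of `𝒟` agrees, on any given countable set, with
some extreme point of `K`. -/
theorem exists_extreme_agree {m : V → ℝ} (hm : m ∈ Set.extremePoints ℝ X.𝒟)
    (G₀ : Set V) (hG₀ : G₀.Countable) :
    ∃ ν ∈ Set.extremePoints ℝ X.K, ∀ g ∈ G₀, ν g = m g := by
  classical
  have hr : ∀ (f : V) (n : ℕ), ∃ G : Finset V, ∀ m₁ ∈ X.𝒟, ∀ m₂ ∈ X.𝒟, ∀ t ∈ Set.Icc (0 : ℝ) 1,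
      (∀ g ∈ G, t * m₁ g + (1 - t) * m₂ g = m g) →
        t * (1 - t) * |m₁ f - m₂ f| < 1 / ((n : ℝ) + 1) := fun f n =>
    extreme_reflect X.isCompact_𝒟 hm f _ (by positivity)
  choose W hW using hr
  obtain ⟨G, hG0, hGc, hG⟩ := exists_countable_closure
    (fun x y : V => {x + y} ∪ (Set.range fun r : ℚ => (r : ℝ) • x) ∪ ⋃ n, (W x n : Set V))
    (fun x y => ((Set.countable_singleton _).union (Set.countable_range _)).union
      (Set.countable_iUnion fun n => (W x n).countable_toSet)) (insert 0 G₀) (hG₀.insert 0)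
  have h0 : (0 : V) ∈ G := hG0 (Set.mem_insert _ _)
  have hGadd : ∀ x ∈ G, ∀ y ∈ G, x + y ∈ G := fun x hx y hy => hG x hx y hy (by left; left; rfl)
  have hGsmul : ∀ (r : ℚ), ∀ x ∈ G, (r : ℝ) • x ∈ G := fun r x hx =>
    hG x hx x hx (by left; right; exact ⟨r, rfl⟩)
  have hGW : ∀ x ∈ G, ∀ n, ∀ y ∈ W x n, y ∈ G := fun x hx n y hy =>
    hG x hx x hx (by right; exact Set.mem_iUnion.2 ⟨n, hy⟩)
  obtain ⟨R, F, hR, hF, hRF, hub, hlb⟩ := X.fusion G hGc
  obtain ⟨ν₀, hν₀, hν₀m⟩ := X.lemmaA h0 hGadd hGsmul hR hF hRF hlb hm.1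
  -- the fibre
  let Φ : Set (V → ℝ) := X.Dinf R F ∩ {ν | ∀ g ∈ G, ν g = m g}
  have hΦcl : IsClosed {ν : V → ℝ | ∀ g ∈ G, ν g = m g} := by
    simp only [Set.ofPred_forall]
    exact isClosed_iInter fun g => isClosed_iInter fun _ =>
      isClosed_eq (continuous_apply g) continuous_const
  have hΦcomp : IsCompact Φ := (X.isCompact_Dinf R F).inter_right hΦcl
  have hΦne : Φ.Nonempty := ⟨ν₀, hν₀, hν₀m⟩
  have hΦext : IsExtreme ℝ X.K Φ := by
    refine ⟨fun ν hν => X.Dinf_subset R F hν.1, ?_⟩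
    intro ν₁ h₁ ν₂ h₂ ν hν hseg
    obtain ⟨s, t, hs, ht, hst, rfl⟩ := hseg
    obtain ⟨hD1, hD2⟩ := X.Dinf_face h₁ h₂ hs ht hst hν.1
    obtain ⟨m₁, hm₁, hm₁e⟩ := X.lemmaB h0 hGadd hGsmul hub hD1
    obtain ⟨m₂, hm₂, hm₂e⟩ := X.lemmaB h0 hGadd hGsmul hub hD2
    have hts : 1 - s = t := by linarith
    refine ⟨hD1, fun g hg => ?_⟩
    have hν2 : ∀ g ∈ G, s * ν₁ g + t * ν₂ g = m g := hν.2
    have key : ∀ n : ℕ, s * (1 - s) * |m₁ g - m₂ g| < 1 / ((n : ℝ) + 1) := by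
      intro n
      refine hW g n m₁ hm₁ m₂ hm₂ s ⟨hs.le, by linarith⟩ fun h hh => ?_
      have hhG := hGW g hg n h hh
      rw [hm₁e h hhG, hm₂e h hhG, hts]
      exact hν2 h hhG
    have hzero : s * (1 - s) * |m₁ g - m₂ g| ≤ 0 := by
      by_contra hpos
      push Not at hpos
      obtain ⟨n, hn⟩ := exists_nat_one_div_lt hpos
      exact absurd (key n) (not_lt.2 hn.le)
    have habs : |m₁ g - m₂ g| ≤ 0 := by
      by_contra hpos
      push Not at hpos
      have : 0 < s * (1 - s) * |m₁ g - m₂ g| := by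
        rw [hts]; positivity
      linarith
    have heq : m₁ g = m₂ g := by
      have := abs_nonpos_iff.1 habs
      linarith
    rw [hm₁e g hg, hm₂e g hg] at heq
    have h3 := hν2 g hg
    rw [← heq, ← add_mul, hst, one_mul] at h3
    exact h3
  obtain ⟨ν, hν⟩ := hΦcomp.extremePoints_nonempty hΦne
  exact ⟨ν, hΦext.extremePoints_subset_extremePoints hν,
    fun g hg => hν.1.2 g (hG0 (Set.mem_insert_of_mem _ hg))⟩

/-- There is a point of `K` which satisfies all generic inequalities and which lies in the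
`G_δ`-closure of the extreme points. -/
theorem exists_generic : ∃ m ∈ X.K, (∀ g c, X.U g c → m g ≤ c) ∧
    ∀ G₀ : Set V, G₀.Countable → ∃ ν ∈ Set.extremePoints ℝ X.K, ∀ g ∈ G₀, ν g = m g := by
  obtain ⟨m, hm⟩ := X.isCompact_𝒟.extremePoints_nonempty X.𝒟_nonempty
  exact ⟨m, X.𝒟_subset hm.1, hm.1.2, fun G₀ hG₀ => X.exists_extreme_agree hm G₀ hG₀⟩

end FaceData

end MP06f7ba
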