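import Pool.Agent.H.MP_06f7ba_an.H93.Means
import Pool.Agent.H.MP_06f7ba_an.H93.Ext

/-!
# MP_06f7ba_an : the ergodic decomposition measure
-/

namespace MP06f7ba

open Set Filter Topology BoundedContinuousFunction MeasureTheory

open scoped CompactlySupported

/-- The compact space of all means. -/
def MS (Γ : Type*) [TopologicalSpace Γ] : Type _ := ↥(Mean Γ)

section MSbasics

variable {Γ : Type*} [TopologicalSpace Γ]

instance : TopologicalSpace (MS Γ) := inferInstanceAs (TopologicalSpace ↥(Mean Γ))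

instance : T2Space (MS Γ) := inferInstanceAs (T2Space ↥(Mean Γ))

instance : CompactSpace (MS Γ) := isCompact_iff_compactSpace.1 isCompact_Mean

instance : MeasurableSpace (MS Γ) := borel _

instance : BorelSpace (MS Γ) := ⟨rfl⟩

/-- the underlying functional. -/
def MS.val (ν : MS Γ) : (Γ →ᵇ ℝ) → ℝ := Subtype.val ν

theorem MS.mem (ν : MS Γ) : ν.val ∈ Mean Γ := Subtype.property ν

theorem MS.continuous_val : Continuous (MS.val : MS Γ → ((Γ →ᵇ ℝ) → ℝ)) := continuous_subtype_val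

theorem MS.continuous_eval (f : Γ →ᵇ ℝ) : Continuous fun ν : MS Γ => ν.val f :=
  (continuous_apply f).comp MS.continuous_val

/-- Evaluation as an element of `C(MS Γ, ℝ)`. -/
def MS.ev (f : Γ →ᵇ ℝ) : C(MS Γ, ℝ) := ⟨fun ν => ν.val f, MS.continuous_eval f⟩

end MSbasics

variable {Γ : Type*} [AddCommGroup Γ] [TopologicalSpace Γ] [DiscreteTopology Γ]

/-- Empirical mean as an element of `MS`. -/
noncomputable def emp (H : AddSubgroup Γ) [Fintype H] (x : Γ) : MS Γ :=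
  ⟨fun f => avg H f x, emp_mem H x⟩

theorem emp_val (H : AddSubgroup Γ) [Fintype H] (x : Γ) (f : Γ →ᵇ ℝ) :
    (emp H x).val f = avg H f x := rfl

/-- Pull back of a continuous function on means by the empirical map. -/
noncomputable def pull (H : AddSubgroup Γ) [Fintype H] (F : C(MS Γ, ℝ)) : Γ →ᵇ ℝ :=
  (mkOfCompact F).compContinuous ⟨fun x => emp H x, continuous_of_discreteTopology⟩

theorem pull_apply (H : AddSubgroup Γ) [Fintype H] (F : C(MS Γ, ℝ)) (x : Γ) :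
    pull H F x = F (emp H x) := rfl

theorem norm_pull_le (H : AddSubgroup Γ) [Fintype H] (F : C(MS Γ, ℝ)) : ‖pull H F‖ ≤ ‖F‖ := by
  refine (norm_compContinuous_le _ _).trans ?_
  exact (BoundedContinuousFunction.norm_mkOfCompact F).le

/-- The representing measure. -/
theorem exists_repr (Sy : FinSys Γ) {m : (Γ →ᵇ ℝ) → ℝ} (hm : m ∈ InvMean Γ) :
    ∃ μ : Measure (MS Γ), IsProbabilityMeasure μ ∧ μ.Regular ∧
      ∀ F : C(MS Γ, ℝ), Tendsto (fun S => m (pull (Sy.H S) F)) (𝒰 Γ) (𝓝 (∫ ν, F ν ∂μ)) := by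
  let net : Finset Γ → (C(MS Γ, ℝ) → ℝ) := fun S F => m (pull (Sy.H S) F)
  have hnet : ∀ S, net S ∈ {ν : C(MS Γ, ℝ) → ℝ | ∀ g, |ν g| ≤ ‖g‖} := fun S F =>
    (Mean.abs_le hm.1 _).trans (norm_pull_le _ F)
  obtain ⟨Λ, -, hlim⟩ := (isCompact_box (V := C(MS Γ, ℝ))).ultrafilter_le_nhds
    (Ultrafilter.map net (𝒰 Γ)) (by
      rw [Filter.le_principal_iff]
      exact Filter.mem_map.2 (Filter.Eventually.of_forall hnet))
  have htend : Tendsto net (𝒰 Γ) (𝓝 Λ) := hlim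
  rw [tendsto_pi_nhds] at htend
  let Λ' : C_c(MS Γ, ℝ) →ₚ[ℝ] ℝ :=
  { toFun := fun g => Λ (g : C(MS Γ, ℝ))
    map_add' := by
      intro g h
      refine tendsto_nhds_unique (htend _) (((htend (g : C(MS Γ, ℝ))).add
        (htend (h : C(MS Γ, ℝ)))).congr fun S => ?_)
      show m _ + m _ = m _
      rw [← hm.1.1.map_add]
      rfl
    map_smul' := by
      intro c g
      refine tendsto_nhds_unique (htend _) (((htend (g : C(MS Γ, ℝ))).const_mul c).congr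
        fun S => ?_)
      show c * m _ = m _
      rw [← smul_eq_mul, ← hm.1.1.map_smul]
      rfl
    monotone' := by
      intro g h hgh
      refine le_of_tendsto_of_tendsto' (htend _) (htend _) fun S => ?_
      exact Mean.mono hm.1 fun x => hgh (emp (Sy.H S) x) }
  refine ⟨RealRMK.rieszMeasure Λ', ?_, inferInstance, ?_⟩
  · constructor
    have h1 := RealRMK.integral_rieszMeasure Λ' ⟨1, HasCompactSupport.of_compactSpace 1⟩
    have h2 : Λ' ⟨1, HasCompactSupport.of_compactSpace 1⟩ = 1 := by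
      show Λ 1 = 1
      refine tendsto_nhds_unique (htend 1) (tendsto_const_nhds.congr fun S => ?_)
      exact hm.1.2.2.symm
    rw [h2] at h1
    have h3 : ∫ _ : MS Γ, (1 : ℝ) ∂(RealRMK.rieszMeasure Λ') = 1 := h1
    rw [integral_const, smul_eq_mul, mul_one, measureReal_def] at h3
    rw [← ENNReal.ofReal_toReal (measure_ne_top (RealRMK.rieszMeasure Λ') univ), h3,
      ENNReal.ofReal_one]
  · intro F
    have h1 := RealRMK.integral_rieszMeasure Λ' ⟨F, HasCompactSupport.of_compactSpace _⟩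
    have h2 : ∫ ν, F ν ∂(RealRMK.rieszMeasure Λ') = Λ F := h1
    rw [h2]
    exact htend F

omit [AddCommGroup Γ] [DiscreteTopology Γ] in
theorem integrable_of_cont {μ : Measure (MS Γ)} [IsFiniteMeasure μ] (F : C(MS Γ, ℝ)) :
    Integrable (fun ν => F ν) μ :=
  (mkOfCompact F).integrable μ

/-- The data of an ergodic decomposition measure. -/
structure Repr (Sy : FinSys Γ) (m : (Γ →ᵇ ℝ) → ℝ) (μ : Measure (MS Γ)) : Prop where
  prob : IsProbabilityMeasure μ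
  reg : μ.Regular
  inv : m ∈ InvMean Γ
  lim : ∀ F : C(MS Γ, ℝ), Tendsto (fun S => m (pull (Sy.H S) F)) (𝒰 Γ) (𝓝 (∫ ν, F ν ∂μ))

namespace Repr

variable {Sy : FinSys Γ} {m : (Γ →ᵇ ℝ) → ℝ} {μ : Measure (MS Γ)} (h : Repr Sy m μ)

include h

theorem integral_ev (f : Γ →ᵇ ℝ) : ∫ ν, ν.val f ∂μ = m f := by
  refine tendsto_nhds_unique (h.lim (MS.ev f)) (tendsto_const_nhds.congr fun S => ?_)
  have : pull (Sy.H S) (MS.ev f) = avg (Sy.H S) f := by
    ext x
    rfl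
  rw [this]
  exact (InvMean.avg_eq h.inv _ f).symm

theorem ae_inv_single (γ : Γ) (f : Γ →ᵇ ℝ) : ∀ᵐ ν ∂μ, ν.val (tr γ f) = ν.val f := by
  have := h.prob
  let F : C(MS Γ, ℝ) := (MS.ev (tr γ f) - MS.ev f) * (MS.ev (tr γ f) - MS.ev f)
  have hF : ∫ ν, F ν ∂μ = 0 := by
    refine tendsto_nhds_unique (h.lim F) (tendsto_const_nhds.congr' ?_)
    filter_upwards [eventually_mem γ] with S hS
    have h0 : pull (Sy.H S) F = 0 := by
      ext x
      have h1 : avg (Sy.H S) (tr γ f) = avg (Sy.H S) f := avg_tr (Sy.H S) f (Sy.mem S γ hS)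
      have h2 : pull (Sy.H S) F x = (avg (Sy.H S) (tr γ f) x - avg (Sy.H S) f x) *
        (avg (Sy.H S) (tr γ f) x - avg (Sy.H S) f x) := rfl
      rw [h2, h1, sub_self, mul_zero]
      rfl
    rw [h0, h.inv.1.1.map_zero]
  have hF0 : (0 : MS Γ → ℝ) ≤ fun ν => F ν := fun ν => mul_self_nonneg _
  have := (integral_eq_zero_iff_of_nonneg hF0 (integrable_of_cont F)).1 hF
  filter_upwards [this] with ν hν
  have h1 : (ν.val (tr γ f) - ν.val f) * (ν.val (tr γ f) - ν.val f) = 0 := hν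
  have h2 := mul_self_eq_zero.1 h1
  linarith

/-- The measure is concentrated on invariant means. -/
theorem ae_inv : ∀ᵐ ν ∂μ, ν.val ∈ InvMean Γ := by
  have := h.prob
  have := h.reg
  have hset : {ν : MS Γ | ¬ ν.val ∈ InvMean Γ} =
      ⋃ p : Γ × (Γ →ᵇ ℝ), {ν : MS Γ | ν.val (tr p.1 p.2) ≠ ν.val p.2} := by
    ext ν
    constructor
    · intro hν
      by_contra hcon
      simp only [Set.mem_iUnion, not_exists] at hcon
      refine hν ⟨ν.mem, fun γ f => ?_⟩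
      by_contra hne
      exact hcon (γ, f) hne
    · intro hν hinv
      obtain ⟨p, hp⟩ := Set.mem_iUnion.1 hν
      exact hp (hinv.2 p.1 p.2)
  have hopen : ∀ p : Γ × (Γ →ᵇ ℝ), IsOpen {ν : MS Γ | ν.val (tr p.1 p.2) ≠ ν.val p.2} := fun p =>
    isOpen_ne_fun (MS.continuous_eval _) (MS.continuous_eval _)
  have hU : IsOpen {ν : MS Γ | ¬ ν.val ∈ InvMean Γ} := by
    rw [hset]
    exact isOpen_iUnion hopen
  rw [MeasureTheory.ae_iff, hU.measure_eq_iSup_isCompact]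
  simp only [ENNReal.iSup_eq_zero]
  intro Q hQ hQc
  refine hQc.measure_zero_of_nhdsWithin fun a ha => ?_
  have ha2 := hQ ha
  rw [hset] at ha2
  obtain ⟨p, hp⟩ := Set.mem_iUnion.1 ha2
  exact ⟨_, mem_nhdsWithin_of_mem_nhds ((hopen p).mem_nhds hp), h.ae_inv_single p.1 p.2⟩

theorem tendsto_sq (f : Γ →ᵇ ℝ) :
    Tendsto (fun S => m (avg (Sy.H S) f * avg (Sy.H S) f)) (𝒰 Γ) (𝓝 (∫ ν, ν.val f * ν.val f ∂μ)) :=
  h.lim (MS.ev f * MS.ev f)

theorem exists_small (f : Γ →ᵇ ℝ) (ε : ℝ) (hε : 0 < ε) : ∃ S : Finset Γ,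
    ∫ ν, (ν.val (avg (Sy.H S) f * avg (Sy.H S) f) - ν.val f * ν.val f) ∂μ < ε := by
  have := h.prob
  have h1 : Tendsto (fun S => m (avg (Sy.H S) f * avg (Sy.H S) f) - ∫ ν, ν.val f * ν.val f ∂μ)
      (𝒰 Γ) (𝓝 0) := by
    have := (h.tendsto_sq f).sub_const (∫ ν, ν.val f * ν.val f ∂μ)
    rwa [sub_self] at this
  obtain ⟨S, hS⟩ := (h1.eventually (gt_mem_nhds hε)).exists
  refine ⟨S, ?_⟩
  have e1 : ∫ ν, (ν.val (avg (Sy.H S) f * avg (Sy.H S) f) - ν.val f * ν.val f) ∂μ =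
      ∫ ν, ν.val (avg (Sy.H S) f * avg (Sy.H S) f) ∂μ - ∫ ν, ν.val f * ν.val f ∂μ :=
    integral_sub (integrable_of_cont (MS.ev _)) (integrable_of_cont (MS.ev f * MS.ev f))
  rw [e1, h.integral_ev]
  exact hS

theorem ae_good_single (f : Γ →ᵇ ℝ) : ∃ W : ℕ → Finset Γ, ∀ᵐ ν ∂μ, ∀ ε : ℝ, 0 < ε → ∃ n : ℕ,
    ν.val (avg (Sy.H (W n)) f * avg (Sy.H (W n)) f) - ν.val f * ν.val f < ε := by
  have := h.prob
  have h1 : ∀ n : ℕ, ∃ S : Finset Γ,
    ∫ ν, (ν.val (avg (Sy.H S) f * avg (Sy.H S) f) - ν.val f * ν.val f) ∂μ < 1 / ((n : ℝ) + 1) :=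
    fun n => h.exists_small f _ (by positivity)
  choose W hW using h1
  refine ⟨W, ?_⟩
  let F : ℕ → C(MS Γ, ℝ) := fun n =>
    MS.ev (avg (Sy.H (W n)) f * avg (Sy.H (W n)) f) - MS.ev f * MS.ev f
  have hF0 : ∀ n, (0 : MS Γ → ℝ) ≤ᵐ[μ] fun ν => F n ν := by
    intro n
    filter_upwards [h.ae_inv] with ν hν
    have h2 := Mean.sq_le hν.1 (avg (Sy.H (W n)) f)
    rw [InvMean.avg_eq hν, sq] at h2
    exact sub_nonneg.2 h2
  have hF1 : ∀ n, ∫ ν, F n ν ∂μ < 1 / ((n : ℝ) + 1) := hW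
  have hnull : ∀ ε : ℝ, 0 < ε → μ {ν | ∀ n, ε ≤ F n ν} = 0 := by
    intro ε hε
    have h2 : ∀ n : ℕ, ε * μ.real {ν | ∀ n, ε ≤ F n ν} ≤ 1 / ((n : ℝ) + 1) := by
      intro n
      have h3 := mul_meas_ge_le_integral_of_nonneg (hF0 n) (integrable_of_cont (F n)) ε
      have h4 : μ.real {ν | ∀ n, ε ≤ F n ν} ≤ μ.real {ν | ε ≤ F n ν} :=
        measureReal_mono (fun ν hν => hν n)
      calc ε * μ.real {ν | ∀ n, ε ≤ F n ν} ≤ ε * μ.real {ν | ε ≤ F n ν} :=
            mul_le_mul_of_nonneg_left h4 hε.le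
        _ ≤ ∫ ν, F n ν ∂μ := h3
        _ ≤ 1 / ((n : ℝ) + 1) := (hF1 n).le
    have h5 : μ.real {ν | ∀ n, ε ≤ F n ν} ≤ 0 := by
      by_contra hpos
      push Not at hpos
      obtain ⟨n, hn⟩ := exists_nat_one_div_lt (mul_pos hε hpos)
      exact absurd (h2 n) (not_le.2 hn)
    have h6 : μ.real {ν | ∀ n, ε ≤ F n ν} = 0 := le_antisymm h5 measureReal_nonneg
    exact (measureReal_eq_zero_iff).1 h6
  have h7 : ∀ᵐ ν ∂μ, ∀ k : ℕ, ¬ ∀ n, 1 / ((k : ℝ) + 1) ≤ F n ν := by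
    rw [ae_all_iff]
    intro k
    rw [ae_iff]
    simp only [not_not]
    exact hnull _ (by positivity)
  filter_upwards [h7] with ν hν
  intro ε hε
  obtain ⟨k, hk⟩ := exists_nat_one_div_lt hε
  have h8 := hν k
  push Not at h8
  obtain ⟨n, hn⟩ := h8
  exact ⟨n, hn.trans hk⟩

/-- **Property (P)** for the ergodic decomposition measure. -/
theorem ae_ext (G₀ : Set (Γ →ᵇ ℝ)) (hG₀ : G₀.Countable) :
    ∀ᵐ ν ∂μ, ∃ ν' ∈ Set.extremePoints ℝ (InvMean Γ), ∀ g ∈ G₀, ν' g = ν.val g := by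
  have h1 := h.ae_good_single
  choose W hW using h1
  obtain ⟨G, hG0, hGc, hG⟩ := exists_countable_closure
    (fun x _ : Γ →ᵇ ℝ => ⋃ n, {avg (Sy.H (W x n)) x * avg (Sy.H (W x n)) x})
    (fun x y => Set.countable_iUnion fun n => Set.countable_singleton _) G₀ hG₀
  have hGa : ∀ f ∈ G, ∀ n, avg (Sy.H (W f n)) f * avg (Sy.H (W f n)) f ∈ G := fun f hf n =>
    hG f hf f hf (Set.mem_iUnion.2 ⟨n, rfl⟩)
  have h2 : ∀ᵐ ν ∂μ, ∀ f ∈ G, ∀ ε : ℝ, 0 < ε → ∃ n : ℕ,
      ν.val (avg (Sy.H (W f n)) f * avg (Sy.H (W f n)) f) - ν.val f * ν.val f < ε := by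
    rw [ae_ball_iff hGc]
    exact fun f _ => hW f
  filter_upwards [h2, h.ae_inv] with ν hν hinv
  let Φ : Set ((Γ →ᵇ ℝ) → ℝ) := InvMean Γ ∩ {ν' | ∀ g ∈ G, ν' g = ν.val g}
  have hΦcl : IsClosed {ν' : (Γ →ᵇ ℝ) → ℝ | ∀ g ∈ G, ν' g = ν.val g} := by
    simp only [Set.ofPred_forall]
    exact isClosed_iInter fun g => isClosed_iInter fun _ =>
      isClosed_eq (continuous_apply g) continuous_const
  have hΦcomp : IsCompact Φ :=
    isCompact_Mean.of_isClosed_subset (isClosed_InvMean.inter hΦcl) (fun x hx => hx.1.1)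
  have hΦne : Φ.Nonempty := ⟨ν.val, hinv, fun g _ => rfl⟩
  have hΦext : IsExtreme ℝ (InvMean Γ) Φ := by
    refine ⟨fun x hx => hx.1, ?_⟩
    intro ν₁ h₁ ν₂ h₂ ν' hν' hseg
    obtain ⟨s, t, hs, ht, hst, rfl⟩ := hseg
    refine ⟨h₁, fun f hf => ?_⟩
    have h3 : ∀ g ∈ G, s * ν₁ g + t * ν₂ g = ν.val g := hν'.2
    have key : ∀ ε : ℝ, 0 < ε → s * t * (ν₁ f - ν₂ f) ^ 2 < ε := by
      intro ε hε
      obtain ⟨n, hn⟩ := hν f hf ε hε
      rw [← h3 _ (hGa f hf n), ← h3 f hf] at hn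
      have e1 := Mean.sq_le h₁.1 (avg (Sy.H (W f n)) f)
      have e2 := Mean.sq_le h₂.1 (avg (Sy.H (W f n)) f)
      rw [InvMean.avg_eq h₁] at e1
      rw [InvMean.avg_eq h₂] at e2
      have e3 := mul_le_mul_of_nonneg_left e1 hs.le
      have e4 := mul_le_mul_of_nonneg_left e2 ht.le
      have e5 : s * ν₁ f ^ 2 + t * ν₂ f ^ 2 - (s * ν₁ f + t * ν₂ f) * (s * ν₁ f + t * ν₂ f) =
          s * t * (ν₁ f - ν₂ f) ^ 2 := by
        have : t = 1 - s := by linarith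
        subst this
        ring
      linarith
    have hsq : (ν₁ f - ν₂ f) ^ 2 ≤ 0 := by
      by_contra hpos
      push Not at hpos
      have : 0 < s * t * (ν₁ f - ν₂ f) ^ 2 := by positivity
      exact lt_irrefl _ (key _ this)
    have heq : ν₁ f = ν₂ f := by
      have := pow_eq_zero_iff (two_ne_zero) |>.1 (le_antisymm hsq (sq_nonneg _))
      linarith
    have h4 := h3 f hf
    rw [← heq, ← add_mul, hst, one_mul] at h4
    exact h4
  obtain ⟨ν', hν'⟩ := hΦcomp.extremePoints_nonempty hΦne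
  exact ⟨ν', hΦext.extremePoints_subset_extremePoints hν',
    fun g hg => hν'.1.2 g (hG0 hg)⟩

/-- Almost invariant sets have `{0,1}`-valued measure almost surely. -/
theorem ae_zero_one (C : Set Γ)
    (hC : ∀ γ, m (ind {x : Γ | ¬ (x + γ ∈ C ↔ x ∈ C)}) = 0) :
    ∀ᵐ ν ∂μ, ν.val (ind C) = 0 ∨ ν.val (ind C) = 1 := by
  have := h.prob
  have h1 : ∀ S, m (ind C) ≤ m (avg (Sy.H S) (ind C) * avg (Sy.H S) (ind C)) := by
    intro S
    have h2 : m (ind C - ∑ h : Sy.H S, ind {x : Γ | ¬ (x + h ∈ C ↔ x ∈ C)}) ≤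
        m (avg (Sy.H S) (ind C) * avg (Sy.H S) (ind C)) := by
      refine Mean.mono h.inv.1 fun x => ?_
      have e1 : (ind C - ∑ h : Sy.H S, ind {x : Γ | ¬ (x + h ∈ C ↔ x ∈ C)}) x =
          ind C x - ∑ h : Sy.H S, ind {x : Γ | ¬ (x + h ∈ C ↔ x ∈ C)} x := by
        simp
      rw [e1, BoundedContinuousFunction.mul_apply]
      by_cases hx : ∀ h : Sy.H S, (x + h ∈ C ↔ x ∈ C)
      · have e2 : avg (Sy.H S) (ind C) x = ind C x := by
          rw [avg_apply]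
          have e3 : ∀ h : Sy.H S, ind C (x + h) = ind C x := by
            intro h
            by_cases hc : x ∈ C
            · rw [ind_of_mem hc, ind_of_mem ((hx h).2 hc)]
            · rw [ind_of_notMem hc, ind_of_notMem (fun h' => hc ((hx h).1 h'))]
          simp only [e3, Finset.sum_const, Finset.card_univ, nsmul_eq_mul]
          rw [← mul_assoc, inv_mul_cancel₀ (card_ne_zero' _), one_mul]
        rw [e2]
        have e4 : 0 ≤ ∑ h : Sy.H S, ind {x : Γ | ¬ (x + h ∈ C ↔ x ∈ C)} x :=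
          Finset.sum_nonneg fun _ _ => ind_nonneg _ _
        have e5 : ind C x * ind C x = ind C x := by
          by_cases hc : x ∈ C
          · rw [ind_of_mem hc, one_mul]
          · rw [ind_of_notMem hc, zero_mul]
        rw [e5]
        linarith
      · push Not at hx
        obtain ⟨h', hh'⟩ := hx
        have e6 : ind {x : Γ | ¬ (x + h' ∈ C ↔ x ∈ C)} x = 1 := by
          refine ind_of_mem ?_
          show ¬ (x + h' ∈ C ↔ x ∈ C)
          tauto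
        have e7 := Finset.single_le_sum
          (f := fun h : Sy.H S => ind {x : Γ | ¬ (x + h ∈ C ↔ x ∈ C)} x)
          (fun _ _ => ind_nonneg _ _) (Finset.mem_univ h')
        have e8 : (1 : ℝ) ≤ ∑ h : Sy.H S, ind {x : Γ | ¬ (x + h ∈ C ↔ x ∈ C)} x := e6 ▸ e7
        have e9 : 0 ≤ avg (Sy.H S) (ind C) x * avg (Sy.H S) (ind C) x := mul_self_nonneg _
        linarith [ind_le_one C x]
    have h3 : m (∑ h : Sy.H S, ind {x : Γ | ¬ (x + h ∈ C ↔ x ∈ C)}) =
        ∑ h : Sy.H S, m (ind {x : Γ | ¬ (x + h ∈ C ↔ x ∈ C)}) :=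
      map_sum (IsLinearMap.mk' m h.inv.1.1) _ _
    rw [h.inv.1.1.map_sub, h3] at h2
    simp only [hC, Finset.sum_const_zero, sub_zero] at h2
    exact h2
  have h4 : m (ind C) ≤ ∫ ν, ν.val (ind C) * ν.val (ind C) ∂μ :=
    ge_of_tendsto' (h.tendsto_sq (ind C)) h1
  let F : C(MS Γ, ℝ) := MS.ev (ind C) - MS.ev (ind C) * MS.ev (ind C)
  have hF0 : (0 : MS Γ → ℝ) ≤ fun ν => F ν := by
    intro ν
    have e1 : 0 ≤ ν.val (ind C) := ν.mem.2.1 _ (ind_nonneg _)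
    have e2 : ν.val (ind C) ≤ 1 := Mean.le_of_le ν.mem (ind_le_one _)
    have e3 : F ν = ν.val (ind C) - ν.val (ind C) * ν.val (ind C) := rfl
    show 0 ≤ F ν
    rw [e3]
    nlinarith
  have hF1 : ∫ ν, F ν ∂μ = 0 := by
    refine le_antisymm ?_ (integral_nonneg hF0)
    have e1 : ∫ ν, F ν ∂μ = ∫ ν, ν.val (ind C) ∂μ - ∫ ν, ν.val (ind C) * ν.val (ind C) ∂μ :=
      integral_sub (integrable_of_cont (MS.ev (ind C)))
        (integrable_of_cont (MS.ev (ind C) * MS.ev (ind C)))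
    rw [e1, h.integral_ev]
    linarith
  have := (integral_eq_zero_iff_of_nonneg hF0 (integrable_of_cont F)).1 hF1
  filter_upwards [this] with ν hν
  have e3 : ν.val (ind C) - ν.val (ind C) * ν.val (ind C) = 0 := hν
  have e4 : ν.val (ind C) * (1 - ν.val (ind C)) = 0 := by linarith
  rcases mul_eq_zero.1 e4 with e5 | e5
  · left; exact e5
  · right; linarith

end Repr

end MP06f7ba
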