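import Pool.Agent.H.MP_06f7ba_an.H93.Basic

/-!
# MP_06f7ba_an : families of closed faces of a compact convex set of functionals
-/

namespace MP06f7ba

open Set Filter Topology

variable {V : Type*} [NormedAddCommGroup V] [NormedSpace ℝ V] {κ : Type*} [DecidableEq κ]

omit [NormedSpace ℝ V] in
/-- The set of all plain functionals bounded by the norm is compact. -/
theorem isCompact_box : IsCompact {ν : V → ℝ | ∀ g, |ν g| ≤ ‖g‖} := by
  have : {ν : V → ℝ | ∀ g, |ν g| ≤ ‖g‖} = Set.pi Set.univ (fun g => Set.Icc (-‖g‖) ‖g‖) := by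
    ext ν
    constructor
    · intro h g _
      exact abs_le.1 (h g)
    · intro h g
      exact abs_le.2 (h g trivial)
  rw [this]
  exact isCompact_univ_pi fun g => isCompact_Icc

theorem isClosed_linear : IsClosed {ν : V → ℝ | IsLinearMap ℝ ν} := by
  have : {ν : V → ℝ | IsLinearMap ℝ ν} =
      {ν : V → ℝ | ∀ x y, ν (x + y) = ν x + ν y} ∩ {ν : V → ℝ | ∀ (c : ℝ) x, ν (c • x) = c • ν x} := by
    ext ν
    constructor
    · intro h
      exact ⟨h.map_add, h.map_smul⟩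
    · rintro ⟨h1, h2⟩
      exact ⟨h1, h2⟩
  rw [this]
  refine IsClosed.inter ?_ ?_
  · simp only [Set.ofPred_forall]
    refine isClosed_iInter fun x => isClosed_iInter fun y => ?_
    exact isClosed_eq (continuous_apply (x + y)) (Continuous.add (f := fun ν : V → ℝ => ν x)
      (g := fun ν : V → ℝ => ν y) (continuous_apply x) (continuous_apply y))
  · simp only [Set.ofPred_forall]
    refine isClosed_iInter fun c => isClosed_iInter fun x => ?_
    exact isClosed_eq (continuous_apply _) ((continuous_apply _).const_smul c)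

/-- A compact convex set of linear functionals together with a family of closed faces
`{ν ∈ K | ν (a R F) = 1}`. -/
structure FaceData (V : Type*) [NormedAddCommGroup V] [NormedSpace ℝ V] (κ : Type*)
    [DecidableEq κ] where
  K : Set (V → ℝ)
  lin : ∀ ν ∈ K, IsLinearMap ℝ ν
  bdd : ∀ ν ∈ K, ∀ g, |ν g| ≤ ‖g‖
  sat : ∀ Λ : V → ℝ, IsLinearMap ℝ Λ → (∀ g c, (∀ ν ∈ K, ν g ≤ c) → Λ g ≤ c) → Λ ∈ K
  a : Finset κ → Finset κ → V
  a_le : ∀ ν ∈ K, ∀ R F, ν (a R F) ≤ 1
  a_mono : ∀ ν ∈ K, ∀ R R' F F', R ⊆ R' → F ⊆ F' → ν (a R' F') ≤ ν (a R F)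
  ne : ∀ R F, Disjoint R F → ∃ ν ∈ K, ν (a R F) = 1

namespace FaceData

variable (X : FaceData V κ)

/-- The closed face attached to `R, F`. -/
def D (R F : Finset κ) : Set (V → ℝ) := {ν | ν ∈ X.K ∧ ν (X.a R F) = 1}

theorem D_subset (R F : Finset κ) : X.D R F ⊆ X.K := fun _ h => h.1

theorem D_anti {R R' F F' : Finset κ} (hR : R ⊆ R') (hF : F ⊆ F') : X.D R' F' ⊆ X.D R F := by
  rintro ν ⟨h1, h2⟩
  refine ⟨h1, le_antisymm (X.a_le ν h1 R F) ?_⟩
  have := X.a_mono ν h1 R R' F F' hR hF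
  rw [h2] at this
  exact this

theorem isClosed_K : IsClosed X.K := by
  have : X.K = {ν : V → ℝ | IsLinearMap ℝ ν} ∩
      {Λ | ∀ g c, (∀ ν ∈ X.K, ν g ≤ c) → Λ g ≤ c} := by
    ext Λ
    constructor
    · intro h
      exact ⟨X.lin Λ h, fun g c hc => hc Λ h⟩
    · rintro ⟨h1, h2⟩
      exact X.sat Λ h1 h2
  rw [this]
  refine isClosed_linear.inter ?_
  simp only [Set.ofPred_forall]
  refine isClosed_iInter fun g => isClosed_iInter fun c => isClosed_iInter fun _ => ?_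
  exact isClosed_le (continuous_apply _) continuous_const

theorem isCompact_K : IsCompact X.K :=
  isCompact_box.of_isClosed_subset X.isClosed_K (fun ν h => X.bdd ν h)

theorem isClosed_D (R F : Finset κ) : IsClosed (X.D R F) :=
  X.isClosed_K.inter (isClosed_eq (continuous_apply _) continuous_const)

theorem isCompact_D (R F : Finset κ) : IsCompact (X.D R F) :=
  X.isCompact_K.of_isClosed_subset (X.isClosed_D R F) (X.D_subset R F)

theorem convex_K : Convex ℝ X.K := by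
  intro ν hν μ hμ s t hs ht hst
  refine X.sat _ ?_ ?_
  · have h1 := X.lin ν hν
    have h2 := X.lin μ hμ
    constructor
    · intro x y
      simp only [Pi.add_apply, Pi.smul_apply, smul_eq_mul, h1.map_add, h2.map_add]
      ring
    · intro c x
      simp only [Pi.add_apply, Pi.smul_apply, smul_eq_mul, h1.map_smul, h2.map_smul]
      ring
  · intro g c hc
    simp only [Pi.add_apply, Pi.smul_apply, smul_eq_mul]
    have h1 := hc ν hν
    have h2 := hc μ hμ
    calc s * ν g + t * μ g ≤ s * c + t * c := by gcongr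
      _ = c := by rw [← add_mul, hst, one_mul]

/-- `D R F` is a face of `K`. -/
theorem D_face {R F : Finset κ} {ν μ : V → ℝ} (hν : ν ∈ X.K) (hμ : μ ∈ X.K) {s t : ℝ}
    (hs : 0 < s) (ht : 0 < t) (hst : s + t = 1) (h : s • ν + t • μ ∈ X.D R F) :
    ν ∈ X.D R F ∧ μ ∈ X.D R F := by
  have h1 := h.2
  simp only [Pi.add_apply, Pi.smul_apply, smul_eq_mul] at h1
  have h2 := X.a_le ν hν R F
  have h3 := X.a_le μ hμ R F
  refine ⟨⟨hν, ?_⟩, ⟨hμ, ?_⟩⟩
  · by_contra hne
    have h4 : ν (X.a R F) < 1 := lt_of_le_of_ne h2 hne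
    nlinarith
  · by_contra hne
    have h4 : μ (X.a R F) < 1 := lt_of_le_of_ne h3 hne
    nlinarith

/-- `D R F` is saturated as well. -/
theorem D_sat {R F : Finset κ} {Λ : V → ℝ} (hΛ : IsLinearMap ℝ Λ)
    (h : ∀ g c, (∀ ν ∈ X.D R F, ν g ≤ c) → Λ g ≤ c) : Λ ∈ X.D R F := by
  have hK : Λ ∈ X.K := X.sat Λ hΛ fun g c hc => h g c fun ν hν => hc ν hν.1
  refine ⟨hK, le_antisymm (X.a_le Λ hK R F) ?_⟩
  have := h (-(X.a R F)) (-1) (fun ν hν => by
    rw [(X.lin ν hν.1).map_neg, hν.2])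
  rw [hΛ.map_neg] at this
  linarith

/-! ### The tree quantifier -/

/-- `Tr Φ k R`: for uncountably many `α₁`, ..., for uncountably many `α_k`, `Φ (R ∪ {α_i})`. -/
def Tr (Φ : Finset κ → Prop) : ℕ → Finset κ → Prop
  | 0, R => Φ R
  | k + 1, R => ¬ (Set.Countable {α | Tr Φ k (insert α R)})

theorem Tr_mono {Φ Ψ : Finset κ → Prop} (h : ∀ R, Φ R → Ψ R) :
    ∀ k R, Tr Φ k R → Tr Ψ k R := by
  intro k
  induction k with
  | zero => exact fun R hR => h R hR
  | succ k ih =>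
    intro R hR hc
    exact hR (hc.mono fun α hα => ih _ hα)

/-- enlarging the base set. -/
theorem Tr_union {Φ Ψ : Finset κ → Prop} (R₀ : Finset κ) (h : ∀ R, Φ R → Ψ (R ∪ R₀)) :
    ∀ k R, Tr Φ k R → Tr Ψ k (R ∪ R₀) := by
  intro k
  induction k with
  | zero => exact fun R hR => h R hR
  | succ k ih =>
    intro R hR hc
    refine hR (hc.mono fun α hα => ?_)
    have := ih _ hα
    rw [Finset.insert_union] at this
    exact this

/-- concatenation of trees. -/
theorem Tr_concat {Φ₁ Φ₂ Ψ : Finset κ → Prop} (l : ℕ) (h2 : Tr Φ₂ l ∅)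
    (h : ∀ R S, Φ₁ R → Φ₂ S → Ψ (S ∪ R)) :
    ∀ k R, Tr Φ₁ k R → Tr Ψ (k + l) R := by
  intro k
  induction k with
  | zero =>
    intro R hR
    have := Tr_union (Φ := Φ₂) (Ψ := Ψ) R (fun S hS => h R S hR hS) l ∅ h2
    rw [Finset.empty_union] at this
    rw [Nat.zero_add]
    exact this
  | succ k ih =>
    intro R hR
    rw [Nat.add_right_comm]
    intro hc
    exact hR (hc.mono fun α hα => ih _ hα)

/-- extraction of a branch avoiding a countable set of bad extensions. -/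
theorem Tr_branch {Φ : Finset κ → Prop} (Inv : Finset κ → Prop)
    (hInv : ∀ R, Inv R → Set.Countable {α | ¬ Inv (insert α R)}) :
    ∀ k R, Inv R → Tr Φ k R → ∃ R', R ⊆ R' ∧ Inv R' ∧ Φ R' := by
  intro k
  induction k with
  | zero => exact fun R hI hR => ⟨R, subset_rfl, hI, hR⟩
  | succ k ih =>
    intro R hI hR
    have : ∃ α, Tr Φ k (insert α R) ∧ Inv (insert α R) := by
      by_contra hcon
      push Not at hcon
      exact hR ((hInv R hI).mono fun α hα => hcon α hα)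
    obtain ⟨α, h1, h2⟩ := this
    obtain ⟨R', h3, h4, h5⟩ := ih _ h2 h1
    exact ⟨R', (Finset.subset_insert _ _).trans h3, h4, h5⟩

/-- upper bound of `g` by `c` on the face `D R F`. -/
def Bound (g : V) (c : ℝ) (F R : Finset κ) : Prop := ∀ ν ∈ X.D R F, ν g ≤ c

theorem Bound_mono {g : V} {c : ℝ} {F F' R R' : Finset κ} (hF : F ⊆ F') (hR : R ⊆ R')
    (h : X.Bound g c F R) : X.Bound g c F' R' := fun ν hν => h ν (X.D_anti hR hF hν)

/-- `U g c`: the inequality `g ≤ c` holds generically. -/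
def U (g : V) (c : ℝ) : Prop := ∃ (F : Finset κ) (k : ℕ), Tr (X.Bound g c F) k ∅

theorem U_mono {g : V} {c d : ℝ} (hcd : c ≤ d) (h : X.U g c) : X.U g d := by
  obtain ⟨F, k, hk⟩ := h
  exact ⟨F, k, Tr_mono (fun R hR ν hν => (hR ν hν).trans hcd) k ∅ hk⟩

theorem U_of_le {g : V} {c : ℝ} (h : ∀ ν ∈ X.K, ν g ≤ c) : X.U g c :=
  ⟨∅, 0, fun ν hν => h ν hν.1⟩

theorem U_add {g h : V} {c d : ℝ} (hg : X.U g c) (hh : X.U h d) : X.U (g + h) (c + d) := by
  obtain ⟨F, k, hk⟩ := hg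
  obtain ⟨F', l, hl⟩ := hh
  refine ⟨F ∪ F', k + l, Tr_concat l hl (fun R S hR hS => ?_) k ∅ hk⟩
  intro ν hν
  rw [(X.lin ν hν.1).map_add]
  exact add_le_add
    (hR ν (X.D_anti Finset.subset_union_right Finset.subset_union_left hν))
    (hS ν (X.D_anti Finset.subset_union_left Finset.subset_union_right hν))

theorem U_smul {g : V} {c t : ℝ} (ht : 0 < t) (hg : X.U g c) : X.U (t • g) (t * c) := by
  obtain ⟨F, k, hk⟩ := hg
  refine ⟨F, k, Tr_mono (fun R hR ν hν => ?_) k ∅ hk⟩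
  rw [(X.lin ν hν.1).map_smul, smul_eq_mul]
  exact mul_le_mul_of_nonneg_left (hR ν hν) ht.le

theorem U_lower [Uncountable κ] {g : V} {c : ℝ} (h : X.U g c) : -‖g‖ ≤ c := by
  obtain ⟨F, k, hk⟩ := h
  obtain ⟨R, -, hR1, hR2⟩ := Tr_branch (fun R => Disjoint R F) (fun R hR => by
    refine F.countable_toSet.mono fun α hα => ?_
    simp only [Finset.disjoint_insert_left, mem_ofPred_eq, not_and_or, not_not] at hα
    rcases hα with hα | hα
    · exact hα
    · exact absurd hR hα) k ∅ (Finset.disjoint_empty_left F) hk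
  obtain ⟨ν, hν1, hν2⟩ := X.ne R F hR1
  have h1 := hR2 ν ⟨hν1, hν2⟩
  have h2 := X.bdd ν hν1 g
  rw [abs_le] at h2
  linarith [h2.1]

/-- The sublinear functional. -/
noncomputable def q (g : V) : ℝ := sInf {c | X.U g c}

theorem U_nonempty (g : V) : {c | X.U g c}.Nonempty :=
  ⟨‖g‖, X.U_of_le fun ν hν => (abs_le.1 (X.bdd ν hν g)).2⟩

variable [Uncountable κ]

theorem U_bddBelow (g : V) : BddBelow {c | X.U g c} := ⟨-‖g‖, fun _ hc => X.U_lower hc⟩

theorem q_le {g : V} {c : ℝ} (h : X.U g c) : X.q g ≤ c := csInf_le (X.U_bddBelow g) h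

theorem q_le_norm (g : V) : X.q g ≤ ‖g‖ :=
  X.q_le (X.U_of_le fun ν hν => (abs_le.1 (X.bdd ν hν g)).2)

omit [Uncountable κ] in
theorem U_of_q_lt {g : V} {c : ℝ} (h : X.q g < c) : X.U g c := by
  obtain ⟨d, hd1, hd2⟩ := exists_lt_of_csInf_lt (X.U_nonempty g) h
  exact X.U_mono hd2.le hd1

theorem q_add (g h : V) : X.q (g + h) ≤ X.q g + X.q h := by
  refine le_of_forall_pos_le_add fun ε hε => ?_
  have h1 := X.U_of_q_lt (g := g) (c := X.q g + ε / 2) (by linarith)
  have h2 := X.U_of_q_lt (g := h) (c := X.q h + ε / 2) (by linarith)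
  have := X.q_le (X.U_add h1 h2)
  linarith

theorem q_smul_le {t : ℝ} (ht : 0 < t) (g : V) : X.q (t • g) ≤ t * X.q g := by
  refine le_of_forall_pos_le_add fun ε hε => ?_
  have h1 := X.U_of_q_lt (g := g) (c := X.q g + ε / t) (by
    have := div_pos hε ht
    linarith)
  have := X.q_le (X.U_smul ht h1)
  have h2 : t * (X.q g + ε / t) = t * X.q g + ε := by field_simp
  rw [h2] at this
  exact this

theorem q_smul {t : ℝ} (ht : 0 < t) (g : V) : X.q (t • g) = t * X.q g := by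
  refine le_antisymm (X.q_smul_le ht g) ?_
  have h := X.q_smul_le (inv_pos.2 ht) (t • g)
  rw [smul_smul, inv_mul_cancel₀ ht.ne', one_smul] at h
  have h3 : t * X.q g ≤ t * (t⁻¹ * X.q (t • g)) := mul_le_mul_of_nonneg_left h ht.le
  rwa [← mul_assoc, mul_inv_cancel₀ ht.ne', one_mul] at h3

/-- The compact convex set of functionals below `q`. -/
def 𝒟 : Set (V → ℝ) := {Λ | IsLinearMap ℝ Λ ∧ ∀ g c, X.U g c → Λ g ≤ c}

omit [Uncountable κ] in
theorem 𝒟_subset : X.𝒟 ⊆ X.K := fun Λ h => X.sat Λ h.1 fun g c hc => h.2 g c (X.U_of_le hc)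

theorem mem_𝒟_of_le_q {Λ : V → ℝ} (h1 : IsLinearMap ℝ Λ) (h2 : ∀ g, Λ g ≤ X.q g) : Λ ∈ X.𝒟 :=
  ⟨h1, fun g c hc => (h2 g).trans (X.q_le hc)⟩

omit [Uncountable κ] in
theorem le_q_of_mem {Λ : V → ℝ} (h : Λ ∈ X.𝒟) (g : V) : Λ g ≤ X.q g :=
  le_csInf (X.U_nonempty g) fun c hc => h.2 g c hc

omit [Uncountable κ] in
theorem isClosed_𝒟 : IsClosed X.𝒟 := by
  have : X.𝒟 = {ν : V → ℝ | IsLinearMap ℝ ν} ∩ {Λ | ∀ g c, X.U g c → Λ g ≤ c} := rfl
  rw [this]
  refine isClosed_linear.inter ?_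
  simp only [Set.ofPred_forall]
  refine isClosed_iInter fun g => isClosed_iInter fun c => isClosed_iInter fun _ => ?_
  exact isClosed_le (continuous_apply _) continuous_const

omit [Uncountable κ] in
theorem isCompact_𝒟 : IsCompact X.𝒟 := X.isCompact_K.of_isClosed_subset X.isClosed_𝒟 X.𝒟_subset

theorem 𝒟_nonempty : X.𝒟.Nonempty := by
  obtain ⟨Λ, h1, h2, -⟩ := hahnBanach_rat X.q (fun _ hc x => X.q_smul hc x) X.q_add X.q_le_norm
    {0} rfl (by simp) (by simp) (fun _ => 0) ⟨by simp, by simp⟩ (by simp) (by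
      intro x hx
      rw [Set.mem_singleton_iff] at hx
      subst hx
      refine le_csInf (X.U_nonempty 0) fun _ hc => ?_
      have := X.U_lower hc
      simpa using this)
  exact ⟨Λ, X.mem_𝒟_of_le_q h1 h2⟩

end FaceData

end MP06f7ba
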