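import Pool.Agent.H.MP_06f7ba_an.H93.Baire

/-!
# MP_06f7ba_an : the measure on the enlarged σ-algebra
-/

namespace MP06f7ba

open Set Filter Topology MeasureTheory

theorem exists_push {X Y : Type*} [MeasurableSpace Y] (ℬ : MeasurableSpace X) (E : Set X)
    (μ₀ : Measure Y) [IsProbabilityMeasure μ₀] (j : Y → X) (hj : Measurable[_, ℬ] j)
    (hnull : ∀ B, MeasurableSet[ℬ] B → Disjoint B E → μ₀ (j ⁻¹' B) = 0) :
    ∃ σ : @Measure X (adjoin ℬ E), σ Set.univ = 1 ∧ σ E = 1 ∧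
      ∀ (f : X → ℂ), Measurable[ℬ] f → ∀ A, MeasurableSet[ℬ] A →
        (∫ x in A ∩ E, f x ∂σ = ∫ y in j ⁻¹' A, f (j y) ∂μ₀) ∧
        (∫ x in A, f x ∂σ = ∫ y in j ⁻¹' A, f (j y) ∂μ₀) := by
  let μB : @Measure X ℬ := @Measure.map Y X _ ℬ j μ₀
  have hμB : ∀ B, MeasurableSet[ℬ] B → μB B = μ₀ (j ⁻¹' B) := fun B hB =>
    @Measure.map_apply Y X _ ℬ μ₀ j hj B hB
  have hp : @IsProbabilityMeasure X ℬ μB := by
    constructor
    rw [hμB _ MeasurableSet.univ, Set.preimage_univ, measure_univ]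
  obtain ⟨σ, hσE, hσB⟩ := exists_extension ℬ E μB hp (fun B hB hd => by
    rw [hμB B hB]
    exact hnull B hB hd)
  have hle : ℬ ≤ adjoin ℬ E := le_adjoin _ _
  have hσu : σ Set.univ = 1 := by
    rw [hσB _ MeasurableSet.univ]
    exact hp.measure_univ
  have hσp : @IsProbabilityMeasure X (adjoin ℬ E) σ := @IsProbabilityMeasure.mk X (adjoin ℬ E) σ hσu
  have htrim : @Measure.trim X ℬ (adjoin ℬ E) σ hle = μB := by
    refine @Measure.ext X ℬ _ _ fun B hB => ?_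
    rw [trim_measurableSet_eq hle hB, hσB B hB]
  have hEc : σ Eᶜ = 0 := by
    exact (@prob_compl_eq_zero_iff X (adjoin ℬ E) σ E hσp (measurableSet_adjoin ℬ E)).2 hσE
  refine ⟨σ, hσu, hσE, ?_⟩
  intro f hf A hA
  -- step 1
  have h1 : ∫ x in A ∩ E, f x ∂σ = ∫ x in A, f x ∂σ := by
    refine @setIntegral_congr_set X ℂ (adjoin ℬ E) _ _ f _ _ σ ?_
    have : E =ᵐ[σ] Set.univ := by
      rw [ae_eq_univ]
      exact hEc
    have h2 := (Filter.EventuallyEq.refl (ae σ) A).inter this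
    rwa [Set.inter_univ] at h2
  -- step 2
  have h2 : ∫ x in A, f x ∂σ = ∫ x, A.indicator f x ∂σ :=
    (@integral_indicator X ℂ (adjoin ℬ E) _ _ f A σ (hle A hA)).symm
  have hsm : StronglyMeasurable[ℬ] (A.indicator f) := by
    have : Measurable[ℬ] (A.indicator f) := hf.indicator hA
    exact this.stronglyMeasurable
  have h3 : ∫ x, A.indicator f x ∂σ = @integral X ℂ _ _ ℬ μB (A.indicator f) := by
    rw [integral_trim hle hsm, htrim]
  have h4 : @integral X ℂ _ _ ℬ μB (A.indicator f) = ∫ y, A.indicator f (j y) ∂μ₀ :=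
    @integral_map Y ℂ _ _ _ μ₀ X ℬ j hj.aemeasurable (A.indicator f)
      hsm.aestronglyMeasurable
  have h5 : ∫ y, A.indicator f (j y) ∂μ₀ = ∫ y in j ⁻¹' A, f (j y) ∂μ₀ := by
    rw [← integral_indicator (hj hA)]
    rfl
  rw [h1]
  have h6 : ∫ x in A, f x ∂σ = ∫ y in j ⁻¹' A, f (j y) ∂μ₀ := by rw [h2, h3, h4, h5]
  exact ⟨h6, h6⟩

end MP06f7ba
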