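import Pool.Agent.H.MP_06f7ba_an.H93.RealMain
import Pool.Agent.H.MP_06f7ba_an.H93.Push
import Pool.Agent.H.MP_06f7ba_an.H93.Cplx

/-!
# MP_06f7ba_an : the counterexample
-/

namespace MP06f7ba

open Set Filter Topology BoundedContinuousFunction MeasureTheory

section Transfer

variable {Γ : Type*} [AddCommGroup Γ] [TopologicalSpace Γ] [DiscreteTopology Γ]

/-- The map from real means to complex invariant means (with a default value). -/
noncomputable def jmap (m : (Γ →ᵇ ℝ) → ℝ) (hm : m ∈ InvMean Γ) (ν : MS Γ) : ↥(InvMeans Γ) :=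
  open Classical in
  if h : ν.val ∈ InvMean Γ then ⟨Phi ν.val, Phi_mem h⟩ else ⟨Phi m, Phi_mem hm⟩

theorem jmap_of_mem {m : (Γ →ᵇ ℝ) → ℝ} {hm : m ∈ InvMean Γ} {ν : MS Γ}
    (h : ν.val ∈ InvMean Γ) : jmap m hm ν = ⟨Phi ν.val, Phi_mem h⟩ := by
  simp [jmap, h]

theorem jmap_of_notMem {m : (Γ →ᵇ ℝ) → ℝ} {hm : m ∈ InvMean Γ} {ν : MS Γ}
    (h : ¬ ν.val ∈ InvMean Γ) : jmap m hm ν = ⟨Phi m, Phi_mem hm⟩ := by
  simp [jmap, h]

theorem measurable_jmap (m : (Γ →ᵇ ℝ) → ℝ) (hm : m ∈ InvMean Γ) :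
    @Measurable _ _ _ (baire ↥(InvMeans Γ)) (jmap m hm) := by
  refine @measurable_generateFrom _ _ _ _ _ ?_
  intro S hS
  have hQ : IsClosed {ν : MS Γ | ν.val ∈ InvMean Γ} :=
    isClosed_InvMean.preimage MS.continuous_val
  obtain ⟨W, hW, hWS⟩ := isClosed_induced_iff.1 hS.1.isClosed
  have h1 : IsClosed {ν : MS Γ | Phi ν.val ∈ W} :=
    hW.preimage (continuous_Phi.comp MS.continuous_val)
  have h2 : jmap m hm ⁻¹' S = ({ν : MS Γ | ν.val ∈ InvMean Γ} ∩ {ν : MS Γ | Phi ν.val ∈ W}) ∪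
      ({ν : MS Γ | ν.val ∈ InvMean Γ}ᶜ ∩ {_ν : MS Γ | Phi m ∈ W}) := by
    ext ν
    rw [← hWS]
    by_cases h : ν.val ∈ InvMean Γ
    · simp [jmap_of_mem h, h]
    · simp [jmap_of_notMem h, h]
  rw [h2]
  refine (hQ.measurableSet.inter h1.measurableSet).union (hQ.measurableSet.compl.inter ?_)
  exact MeasurableSet.const _

/-- Evaluations are Baire measurable. -/
theorem measurable_eval (f : Linf Γ) :
    @Measurable _ _ (baire ↥(InvMeans Γ)) _ (fun ν : ↥(InvMeans Γ) => ν.1 f) := by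
  have hc : CompactSpace ↥(InvMeans Γ) := isCompact_iff_compactSpace.1 isCompact_InvMeans
  have hcont : Continuous fun ν : ↥(InvMeans Γ) => ν.1 f :=
    (continuous_apply f).comp continuous_subtype_val
  refine @measurable_of_isClosed _ _ _ _ _ (baire ↥(InvMeans Γ)) _ ?_
  intro S hS
  refine MeasurableSpace.measurableSet_generateFrom ⟨(hS.preimage hcont).isCompact, ?_⟩
  exact hS.isGδ.preimage hcont

end Transfer

section Indicator

variable {Γ : Type*}

theorem IsMean.congr {m : Linf Γ → ℂ} {f g : Linf Γ} (h : ∀ x, f.1 x = g.1 x) : m f = m g := by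
  rw [show f = g from Subtype.ext (funext h)]

/-- No `L²(m)`-Cauchy sequence of indicators represents one half of `m`. -/
theorem no_half {m : Linf Γ → ℂ} (hm : IsMean m) (C : ℕ → Set Γ)
    (hC : IsL2Cauchy m fun n => chi (C n))
    (h : ∀ f : Linf Γ, Tendsto (fun n => m (mulL f (chi (C n)))) atTop (𝓝 ((1 / 2 : ℂ) * m f))) :
    False := by
  classical
  -- `m (C n) → 1/2`
  have h1 : Tendsto (fun n => m (chi (C n))) atTop (𝓝 (1 / 2 : ℂ)) := by
    have := h (oneL Γ)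
    rw [hm.one, mul_one] at this
    refine this.congr fun n => IsMean.congr fun x => ?_
    exact one_mul _
  have hsq : ∀ k n, m (sqDiff (chi (C k)) (chi (C n))) =
      m (chi (C k)) + m (chi (C n)) - 2 * m (mulL (chi (C k)) (chi (C n))) := by
    intro k n
    have e1 : m (chi (C k)) + m (chi (C n)) - 2 * m (mulL (chi (C k)) (chi (C n))) =
        m (chi (C k) + chi (C n) - (2 : ℂ) • mulL (chi (C k)) (chi (C n))) := by
      rw [hm.linear.map_sub, hm.linear.map_add, hm.linear.map_smul, smul_eq_mul]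
    rw [e1]
    refine IsMean.congr fun x => ?_
    have e2 : (chi (C k) + chi (C n) - (2 : ℂ) • mulL (chi (C k)) (chi (C n))).1 x =
        (C k).indicator (fun _ => (1 : ℂ)) x + (C n).indicator (fun _ => (1 : ℂ)) x -
          2 * ((C k).indicator (fun _ => (1 : ℂ)) x * (C n).indicator (fun _ => (1 : ℂ)) x) := rfl
    have e3 : (sqDiff (chi (C k)) (chi (C n))).1 x =
        ((‖(C k).indicator (fun _ => (1 : ℂ)) x - (C n).indicator (fun _ => (1 : ℂ)) x‖ ^ 2 : ℝ) :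
          ℂ) := rfl
    rw [e2, e3]
    by_cases hk : x ∈ C k <;> by_cases hn : x ∈ C n <;> (simp [hk, hn]; try norm_num)
  have h2 : ∀ k, Tendsto (fun n => m (sqDiff (chi (C k)) (chi (C n)))) atTop (𝓝 (1 / 2 : ℂ)) := by
    intro k
    simp only [hsq]
    have h3 := (tendsto_const_nhds (x := m (chi (C k)))).add h1
    have h4 := (h (chi (C k))).const_mul (2 : ℂ)
    have h5 := h3.sub h4
    have e : m (chi (C k)) + 1 / 2 - 2 * (1 / 2 * m (chi (C k))) = 1 / 2 := by ring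
    rwa [e] at h5
  obtain ⟨N, hN⟩ := hC (1 / 2) (by norm_num)
  have h3 : Tendsto (fun n => (m (sqDiff (chi (C N)) (chi (C n)))).re) atTop
      (𝓝 ((1 / 2 : ℂ)).re) := (Complex.continuous_re.tendsto _).comp (h2 N)
  have h4 : ∀ n ≥ N, (m (sqDiff (chi (C N)) (chi (C n)))).re ≤ 1 / 4 := by
    intro n hn
    have h5 := hN N le_rfl n hn
    rw [l2dist, Real.sqrt_lt' (by norm_num)] at h5
    norm_num at h5 ⊢
    linarith
  have h5 : ((1 / 2 : ℂ)).re ≤ 1 / 4 :=
    le_of_tendsto h3 (eventually_atTop.2 ⟨N, h4⟩)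
  norm_num at h5

end Indicator

/-- **Main theorem.** -/
theorem main (κ : Type*) [Uncountable κ] :
    ∃ (m : ↥(InvMeans (G κ))) (σ : @Measure ↥(InvMeans (G κ)) (choquetAlg (G κ)))
      (E : Set ↥(InvMeans (G κ))), IsChoquet m σ ∧ E ⊆ ExtMeans (G κ) ∧
        MeasurableSet[choquetAlg (G κ)] E ∧
        ∀ C : ℕ → Set (G κ), IsL2Cauchy m.1 (fun n => chi (C n)) →
          ¬ ∀ f : Linf (G κ), Tendsto (fun n => m.1 (mulL f (chi (C n)))) atTop
            (𝓝 (∫ ν in E, ν.1 f ∂σ)) := by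
  classical
  obtain ⟨m, μ₀, hm, hprob, hinv, hrep, hext, hset⟩ := real_main κ
  let mc : ↥(InvMeans (G κ)) := ⟨Phi m, Phi_mem hm⟩
  -- the Baire measure
  have hnull : ∀ B, MeasurableSet[baire ↥(InvMeans (G κ))] B → Disjoint B (ExtMeans (G κ)) →
      μ₀ (jmap m hm ⁻¹' B) = 0 := by
    intro B hB hdisj
    obtain ⟨J, hJc, hJ⟩ := dep_of_baire hB
    have hc : (reB '' J ∪ imB '' J).Countable := (hJc.image _).union (hJc.image _)
    have h1 : ∀ᵐ ν ∂μ₀, ν ∉ jmap m hm ⁻¹' B := by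
      filter_upwards [hinv, hext _ hc] with ν hν1 hν2 hν3
      obtain ⟨ν', hν', hag⟩ := hν2
      have e1 : jmap m hm ν = ⟨Phi ν.val, Phi_mem hν1⟩ := jmap_of_mem hν1
      have hν3' : jmap m hm ν ∈ B := hν3
      rw [e1] at hν3'
      have h2 : (⟨Phi ν', Phi_mem hν'.1⟩ : ↥(InvMeans (G κ))) ∈ B := by
        refine hJ _ _ (fun f hf => ?_) hν3'
        show Phi ν.val f = Phi ν' f
        rw [Phi, Phi, hag (reB f) (Or.inl ⟨f, hf, rfl⟩), hag (imB f) (Or.inr ⟨f, hf, rfl⟩)]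
      exact Set.disjoint_left.1 hdisj h2 (Phi_ext hν')
    rw [ae_iff] at h1
    simp only [not_not] at h1
    exact h1
  obtain ⟨σ, hσu, hσE, hσ⟩ := exists_push (baire ↥(InvMeans (G κ))) (ExtMeans (G κ)) μ₀
    (jmap m hm) (measurable_jmap m hm) hnull
  have hle : baire ↥(InvMeans (G κ)) ≤ choquetAlg (G κ) := le_adjoin _ _
  have hint : ∀ g : G κ →ᵇ ℝ, Integrable (fun ν : MS (G κ) => ν.val g) μ₀ :=
    fun g => integrable_of_cont (MS.ev g)
  -- integrals over `MS`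
  have hI : ∀ (f : Linf (G κ)) (A : Set (MS (G κ))),
      ∫ ν in A, (jmap m hm ν).1 f ∂μ₀ =
        ((∫ ν in A, ν.val (reB f) ∂μ₀ : ℝ) : ℂ) +
          Complex.I * ((∫ ν in A, ν.val (imB f) ∂μ₀ : ℝ) : ℂ) := by
    intro f A
    have h1 : ∫ ν in A, (jmap m hm ν).1 f ∂μ₀ =
        ∫ ν in A, ((ν.val (reB f) : ℂ) + Complex.I * (ν.val (imB f) : ℂ)) ∂μ₀ := by
      refine integral_congr_ae (ae_restrict_of_ae ?_)
      filter_upwards [hinv] with ν hν
      rw [jmap_of_mem hν]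
      rfl
    rw [h1, integral_add, integral_const_mul, integral_complex_ofReal, integral_complex_ofReal]
    · exact (hint _).restrict.ofReal
    · exact (hint _).restrict.ofReal.const_mul _
  let A₁ : Set ↥(InvMeans (G κ)) := {ν | ν.1 (toL (ind (CC κ))) = 1 / 2}
  have hA₁ : MeasurableSet[baire ↥(InvMeans (G κ))] A₁ :=
    measurable_eval (toL (ind (CC κ))) (measurableSet_singleton (1 / 2 : ℂ))
  have hpre : (jmap m hm ⁻¹' A₁ : Set (MS (G κ))) =ᵐ[μ₀]
      {ν : MS (G κ) | ν.val (ind (CC κ)) = 1 / 2} := by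
    filter_upwards [hinv] with ν hν
    have h1 : (jmap m hm ν).1 (toL (ind (CC κ))) = (ν.val (ind (CC κ)) : ℂ) := by
      rw [jmap_of_mem hν]
      show Phi ν.val (toL (ind (CC κ))) = _
      rw [Phi, reB_toL, imB_toL, hν.1.1.map_zero, Complex.ofReal_zero, mul_zero, add_zero]
    apply propext
    show (jmap m hm ν).1 (toL (ind (CC κ))) = 1 / 2 ↔ ν.val (ind (CC κ)) = 1 / 2
    rw [h1]
    constructor
    · intro h
      have h2 : ((ν.val (ind (CC κ)) : ℝ) : ℂ) = ((1 / 2 : ℝ) : ℂ) := by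
        rw [h]; push_cast; rfl
      exact Complex.ofReal_injective h2
    · intro h
      rw [h]; push_cast; rfl
  have hE : ∀ f : Linf (G κ), ∫ ν in A₁ ∩ ExtMeans (G κ), ν.1 f ∂σ = (1 / 2 : ℂ) * mc.1 f := by
    intro f
    rw [(hσ (fun ν => ν.1 f) (measurable_eval f) A₁ hA₁).1, setIntegral_congr_set hpre, hI,
      hset, hset]
    show _ = (1 / 2 : ℂ) * ((m (reB f) : ℂ) + Complex.I * (m (imB f) : ℂ))
    push_cast
    ring
  refine ⟨mc, σ, A₁ ∩ ExtMeans (G κ), ⟨hσu, hσE, ?_, ?_⟩, Set.inter_subset_right, ?_, ?_⟩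
  · intro f
    exact (measurable_eval f).mono hle le_rfl
  · intro f
    have h1 := (hσ (fun ν => ν.1 f) (measurable_eval f) Set.univ MeasurableSet.univ).2
    rw [Set.preimage_univ, setIntegral_univ, hI, setIntegral_univ, setIntegral_univ, hrep,
      hrep] at h1
    exact h1.symm
  · exact @MeasurableSet.inter _ (choquetAlg (G κ)) _ _ (hle _ hA₁) (measurableSet_adjoin _ _)
  · intro C hC h
    refine no_half mc.2.1 C hC fun f => ?_
    rw [← hE f]
    exact h f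

end MP06f7ba
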