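import Pool.Agent.H.MP_06f7ba_an.H93.Means
import Pool.Agent.H.MP_06f7ba_an.H93.Ext

/-!
# MP_06f7ba_an : the concrete group
-/

namespace MP06f7ba

open Set Filter Topology BoundedContinuousFunction

/-- The coordinate group carrying the codes. -/
abbrev Z (κ : Type*) : Type _ := (ℕ × Finset κ) →₀ ZMod 2

/-- The group `⊕_κ Z/2 × ⊕_{ℕ × Fin κ} Z/2`. -/
abbrev G (κ : Type*) : Type _ := (κ →₀ ZMod 2) × Z κ

scoped instance topG (κ : Type*) : TopologicalSpace (G κ) := ⊥

scoped instance discG (κ : Type*) : DiscreteTopology (G κ) := ⟨rfl⟩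

variable {κ : Type*} [DecidableEq κ]

/-- The top level of a code. -/
noncomputable def lev (z : Z κ) : ℕ := z.support.sup Prod.fst

/-- The coded finite set. -/
noncomputable def top (z : Z κ) : Finset κ :=
  (z.support.filter (fun p => p.1 = lev z)).biUnion Prod.snd

omit [DecidableEq κ] in
theorem le_lev {z : Z κ} {p : ℕ × Finset κ} (h : z p ≠ 0) : p.1 ≤ lev z :=
  Finset.le_sup (f := Prod.fst) (Finsupp.mem_support_iff.2 h)

omit [DecidableEq κ] in
theorem lev_add {z z' : Z κ} (h : ∀ p, z' p ≠ 0 → p.1 < lev z) : lev (z + z') = lev z := by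
  have hz' : ∀ p : ℕ × Finset κ, lev z ≤ p.1 → (z + z') p = z p := by
    intro p hp
    have : z' p = 0 := by
      by_contra hne
      exact absurd (h p hne) (not_lt.2 hp)
    rw [Finsupp.add_apply, this, add_zero]
  apply le_antisymm
  · refine Finset.sup_le fun p hp => ?_
    by_contra hcon
    push Not at hcon
    rw [Finsupp.mem_support_iff, hz' p hcon.le] at hp
    exact absurd (le_lev hp) (not_le.2 hcon)
  · by_cases hz : z.support.Nonempty
    · obtain ⟨p, hp1, hp2⟩ := Finset.exists_mem_eq_sup z.support hz Prod.fst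
      have hp3 : lev z = p.1 := hp2
      have : (z + z') p ≠ 0 := by
        rw [hz' p hp3.le]
        exact Finsupp.mem_support_iff.1 hp1
      rw [hp3]
      exact le_lev this
    · rw [Finset.not_nonempty_iff_eq_empty] at hz
      have : lev z = 0 := by rw [lev, hz]; rfl
      rw [this]
      exact Nat.zero_le _

theorem top_add {z z' : Z κ} (h : ∀ p, z' p ≠ 0 → p.1 < lev z) : top (z + z') = top z := by
  have hz' : ∀ p : ℕ × Finset κ, lev z ≤ p.1 → (z + z') p = z p := by
    intro p hp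
    have : z' p = 0 := by
      by_contra hne
      exact absurd (h p hne) (not_lt.2 hp)
    rw [Finsupp.add_apply, this, add_zero]
  rw [top, top, lev_add h]
  congr 1
  ext p
  rw [Finset.mem_filter, Finset.mem_filter, Finsupp.mem_support_iff, Finsupp.mem_support_iff]
  constructor
  · rintro ⟨h1, h2⟩
    rw [hz' p h2.ge] at h1
    exact ⟨h1, h2⟩
  · rintro ⟨h1, h2⟩
    rw [← hz' p h2.ge] at h1
    exact ⟨h1, h2⟩

/-- The code generator. -/
noncomputable def cod (n : ℕ) (s : Finset κ) : Z κ := Finsupp.single (n, s) 1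

omit [DecidableEq κ] in
theorem cod_support (n : ℕ) (s : Finset κ) : (cod n s).support = {(n, s)} :=
  Finsupp.support_single _ one_ne_zero

omit [DecidableEq κ] in
theorem lev_cod (n : ℕ) (s : Finset κ) : lev (cod n s) = n := by
  rw [lev, cod_support, Finset.sup_singleton]

theorem top_cod (n : ℕ) (s : Finset κ) : top (cod n s) = s := by
  rw [top, cod_support, lev_cod, Finset.filter_singleton, if_pos rfl, Finset.singleton_biUnion]

omit [DecidableEq κ] in
theorem two_z (z : Z κ) : z + z = 0 := by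
  ext p
  rw [Finsupp.add_apply]
  exact CharTwo.add_self_eq_zero _

omit [DecidableEq κ] in
theorem lev_eq_of_add_cod {z : Z κ} {n N : ℕ} (hN : N < n) (s : Finset κ)
    (h : lev (z + cod n s) ≤ N) : lev z = n := by
  have h1 : cod n s + (z + cod n s) = z := by
    rw [add_comm z, ← add_assoc, two_z, zero_add]
  have h2 := lev_add (z := cod n s) (z' := z + cod n s) (fun p hp => by
    rw [lev_cod]
    exact lt_of_le_of_lt ((le_lev hp).trans h) hN)
  rw [h1, lev_cod] at h2
  exact h2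

omit [DecidableEq κ] in
/-- sets of bounded level are null for every invariant mean. -/
theorem null_lev {ν : (G κ →ᵇ ℝ) → ℝ} (hν : ν ∈ InvMean (G κ)) (N : ℕ) :
    ν (ind {x : G κ | lev x.2 ≤ N}) = 0 := by
  set f : G κ →ᵇ ℝ := ind {x : G κ | lev x.2 ≤ N} with hf
  have h0 : 0 ≤ ν f := hν.1.2.1 f (ind_nonneg _)
  have key : ∀ k : ℕ, (k : ℝ) * ν f ≤ 1 := by
    intro k
    have h1 : ν (∑ n ∈ Finset.Ioc N (N + k), tr ((0, cod n ∅) : G κ) f) = k * ν f := by
      have h2 : ν (∑ n ∈ Finset.Ioc N (N + k), tr ((0, cod n ∅) : G κ) f) =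
          ∑ n ∈ Finset.Ioc N (N + k), ν (tr ((0, cod n ∅) : G κ) f) :=
        map_sum (IsLinearMap.mk' ν hν.1.1) _ _
      rw [h2]
      simp only [hν.2]
      rw [Finset.sum_const, Nat.card_Ioc, nsmul_eq_mul]
      congr 2
      omega
    rw [← h1]
    refine Mean.le_of_le hν.1 fun x => ?_
    have h3 : (∑ n ∈ Finset.Ioc N (N + k), tr ((0, cod n ∅) : G κ) f) x =
        ∑ n ∈ Finset.Ioc N (N + k), f (x + ((0, cod n ∅) : G κ)) := by
      simp
    rw [h3]
    calc ∑ n ∈ Finset.Ioc N (N + k), f (x + ((0, cod n ∅) : G κ))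
        ≤ ∑ n ∈ Finset.Ioc N (N + k), (if lev x.2 = n then (1 : ℝ) else 0) := by
          refine Finset.sum_le_sum fun n hn => ?_
          by_cases hx : (x + ((0, cod n ∅) : G κ)) ∈ {x : G κ | lev x.2 ≤ N}
          · have h4 : lev (x.2 + cod n ∅) ≤ N := hx
            have h5 := lev_eq_of_add_cod (Finset.mem_Ioc.1 hn).1 ∅ h4
            rw [if_pos h5]
            exact ind_le_one _ _
          · rw [hf, ind_of_notMem hx]
            split_ifs <;> norm_num
      _ ≤ 1 := by
          rw [Finset.sum_ite_eq]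
          split_ifs <;> norm_num
  by_contra hne
  have hpos : 0 < ν f := lt_of_le_of_ne h0 (Ne.symm hne)
  obtain ⟨k, hk⟩ := exists_nat_gt (1 / ν f)
  have := key k
  rw [div_lt_iff₀ hpos] at hk
  linarith

/-- The set `{R ⊆ T, T ∩ F = ∅}`. -/
def AA (R F : Finset κ) : Set (G κ) := {x | R ⊆ top x.2 ∧ Disjoint (top x.2) F}

/-- The parity set. -/
def CC (κ : Type*) [DecidableEq κ] : Set (G κ) := {x | ∑ β ∈ top x.2, x.1 β = 0}

/-- The system of finite subgroups. -/
noncomputable def sys (κ : Type*) : FinSys (G κ) where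
  H S := (Submodule.span (ZMod 2) (S : Set (G κ))).toAddSubgroup
  fin S := by
    have : Finite (Submodule.span (ZMod 2) (S : Set (G κ))) := by
      have : Module.Finite (ZMod 2) (Submodule.span (ZMod 2) (S : Set (G κ))) :=
        FiniteDimensional.span_finset (ZMod 2) S
      exact Module.finite_of_finite (ZMod 2)
    exact Fintype.ofFinite _
  mem S γ hγ := Submodule.subset_span hγ

/-- The concrete face data. -/
noncomputable def FD (κ : Type*) [DecidableEq κ] : FaceData (G κ →ᵇ ℝ) κ where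
  K := InvMean (G κ)
  lin := fun ν hν => hν.1.1
  bdd := fun ν hν g => Mean.abs_le hν.1 g
  sat := fun Λ h1 h2 => InvMean.sat h1 h2
  a R F := ind (AA R F)
  a_le := fun ν hν R F => Mean.le_of_le hν.1 (ind_le_one _)
  a_mono := by
    intro ν hν R R' F F' hR hF
    refine Mean.mono hν.1 fun x => ?_
    by_cases hx : x ∈ AA R' F'
    · rw [ind_of_mem hx, ind_of_mem (show x ∈ AA R F from ⟨hR.trans hx.1,
        hx.2.mono_right hF⟩)]
    · rw [ind_of_notMem hx]
      exact ind_nonneg _ _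
  ne := by
    intro R F hRF
    let lv : Finset (G κ) → ℕ := fun S =>
      (Finset.univ : Finset ((sys κ).H S)).sup (fun h => lev h.1.2)
    obtain ⟨ν, hν, hlim⟩ := exists_limit (sys κ) (fun S => ((0, cod (lv S + 1) R) : G κ))
    refine ⟨ν, hν, ?_⟩
    refine tendsto_nhds_unique (hlim (ind (AA R F))) (tendsto_const_nhds.congr fun S => ?_)
    have h1 : ∀ h : (sys κ).H S,
        ind (AA R F) (((0, cod (lv S + 1) R) : G κ) + h) = 1 := by
      intro h
      refine ind_of_mem ?_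
      have h2 : top (cod (lv S + 1) R + h.1.2) = R := by
        rw [top_add, top_cod]
        intro p hp
        rw [lev_cod]
        refine Nat.lt_succ_of_le ((le_lev hp).trans ?_)
        exact Finset.le_sup (f := fun h : (sys κ).H S => lev h.1.2) (Finset.mem_univ h)
      have h3 : (((0, cod (lv S + 1) R) : G κ) + h).2 = cod (lv S + 1) R + h.1.2 := rfl
      refine ⟨?_, ?_⟩
      · rw [h3, h2]
      · rw [h3, h2]
        exact hRF
    rw [avg_apply]
    simp only [h1, Finset.sum_const, Finset.card_univ, nsmul_eq_mul, mul_one]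
    exact (inv_mul_cancel₀ (card_ne_zero' _)).symm

/-- If `α ∈ T` almost surely, then `C` has measure `1/2`. -/
theorem flip_half {ν : (G κ →ᵇ ℝ) → ℝ} {α : κ} (hν : ν ∈ (FD κ).D {α} ∅) :
    ν (ind (CC κ)) = 1 / 2 := by
  obtain ⟨hν1, hν2⟩ := hν
  have hν1 : ν ∈ InvMean (G κ) := hν1
  have hν2 : ν (ind (AA {α} ∅)) = 1 := hν2
  have h1 : ν (tr ((Finsupp.single α 1, 0) : G κ) (ind (CC κ))) = ν (ind (CC κ)) := hν1.2 _ _
  -- pointwise comparison
  have hpt : ∀ x : G κ, x ∈ AA {α} ∅ →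
      ind (CC κ) (x + ((Finsupp.single α 1, 0) : G κ)) + ind (CC κ) x = 1 := by
    intro x hx
    have hα : α ∈ top x.2 := by
      have := hx.1
      rwa [Finset.singleton_subset_iff] at this
    have h2 : (x + ((Finsupp.single α 1, 0) : G κ)).2 = x.2 := by
      show x.2 + 0 = x.2
      rw [add_zero]
    have h3 : ∑ β ∈ top x.2, (x + ((Finsupp.single α 1, 0) : G κ)).1 β =
        ∑ β ∈ top x.2, x.1 β + 1 := by
      have : ∀ β, (x + ((Finsupp.single α 1, 0) : G κ)).1 β =
          x.1 β + (Finsupp.single α (1 : ZMod 2)) β := fun β => rfl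
      simp only [this, Finset.sum_add_distrib]
      congr 1
      simp only [Finsupp.single_apply]
      rw [Finset.sum_ite_eq, if_pos hα]
    have hiff : (x + ((Finsupp.single α 1, 0) : G κ)) ∈ CC κ ↔ x ∉ CC κ := by
      have e1 : (x + ((Finsupp.single α 1, 0) : G κ)) ∈ CC κ ↔
          ∑ β ∈ top x.2, x.1 β + 1 = 0 := by
        rw [← h3]
        show (∑ β ∈ top (x + ((Finsupp.single α 1, 0) : G κ)).2, _ = 0) ↔ _
        rw [h2]
      rw [e1]
      show _ ↔ ¬ (∑ β ∈ top x.2, x.1 β = 0)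
      generalize (∑ β ∈ top x.2, x.1 β) = a
      revert a
      decide
    by_cases hc : x ∈ CC κ
    · rw [ind_of_mem hc, ind_of_notMem (fun h => (hiff.1 h) hc), zero_add]
    · rw [ind_of_notMem hc, ind_of_mem (hiff.2 hc), add_zero]
  have hsum : ν (tr ((Finsupp.single α 1, 0) : G κ) (ind (CC κ)) + ind (CC κ)) = 1 := by
    have hup : ν (tr ((Finsupp.single α 1, 0) : G κ) (ind (CC κ)) + ind (CC κ)) ≤
        ν ((2 : ℝ) • (1 : G κ →ᵇ ℝ) - ind (AA {α} ∅)) := by
      refine Mean.mono hν1.1 fun x => ?_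
      have e1 : ((2 : ℝ) • (1 : G κ →ᵇ ℝ) - ind (AA {α} ∅)) x = 2 - ind (AA {α} ∅) x := by
        simp
      rw [e1, BoundedContinuousFunction.add_apply, tr_apply]
      by_cases hx : x ∈ AA {α} ∅
      · rw [hpt x hx, ind_of_mem hx]; norm_num
      · rw [ind_of_notMem hx]
        linarith [ind_le_one (CC κ) x, ind_le_one (CC κ) (x + ((Finsupp.single α 1, 0) : G κ))]
    have hlo : ν (ind (AA {α} ∅)) ≤
        ν (tr ((Finsupp.single α 1, 0) : G κ) (ind (CC κ)) + ind (CC κ)) := by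
      refine Mean.mono hν1.1 fun x => ?_
      rw [BoundedContinuousFunction.add_apply, tr_apply]
      by_cases hx : x ∈ AA {α} ∅
      · rw [hpt x hx, ind_of_mem hx]
      · rw [ind_of_notMem hx]
        linarith [ind_nonneg (CC κ) x, ind_nonneg (CC κ) (x + ((Finsupp.single α 1, 0) : G κ))]
    rw [hν1.1.1.map_sub, hν1.1.1.map_smul, hν1.1.2.2, hν2, smul_eq_mul] at hup
    rw [hν2] at hlo
    linarith
  rw [hν1.1.1.map_add, h1] at hsum
  linarith

variable [Uncountable κ]

theorem U_C : (FD κ).U (ind (CC κ)) (1 / 2) := by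
  refine ⟨∅, 1, ?_⟩
  intro hc
  refine Set.not_countable_univ (α := κ) (hc.mono fun α _ => ?_)
  intro ν hν
  have e : insert α (∅ : Finset κ) = {α} := rfl
  rw [e] at hν
  exact (flip_half hν).le

theorem U_C' : (FD κ).U (-(ind (CC κ))) (-(1 / 2)) := by
  refine ⟨∅, 1, ?_⟩
  intro hc
  refine Set.not_countable_univ (α := κ) (hc.mono fun α _ => ?_)
  intro ν hν
  have e : insert α (∅ : Finset κ) = {α} := rfl
  rw [e] at hν
  have h1 : ν (-(ind (CC κ))) = - ν (ind (CC κ)) := ((FD κ).lin ν hν.1).map_neg _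
  rw [h1, flip_half hν]

omit [Uncountable κ] in
theorem U_mem (β : κ) : (FD κ).U (ind {x : G κ | β ∈ top x.2}) 0 := by
  refine ⟨{β}, 0, ?_⟩
  rintro ν ⟨hν1, hν2⟩
  have hν1 : ν ∈ InvMean (G κ) := hν1
  have hν2 : ν (ind (AA ∅ {β})) = 1 := hν2
  have h1 : ν (ind {x : G κ | β ∈ top x.2}) ≤ ν ((1 : G κ →ᵇ ℝ) - ind (AA ∅ {β})) := by
    refine Mean.mono hν1.1 fun x => ?_
    have e1 : ((1 : G κ →ᵇ ℝ) - ind (AA ∅ {β})) x = 1 - ind (AA ∅ {β}) x := by
      simp
    rw [e1]
    by_cases hx : x ∈ AA ∅ {β}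
    · have : x ∉ {x : G κ | β ∈ top x.2} := by
        intro h
        exact (Finset.disjoint_singleton_right.1 hx.2) h
      rw [ind_of_notMem this, ind_of_mem hx]; norm_num
    · rw [ind_of_notMem hx]
      linarith [ind_le_one {x : G κ | β ∈ top x.2} x]
  rw [hν1.1.1.map_sub, hν1.1.2.2, hν2] at h1
  linarith

omit [Uncountable κ] in
/-- `C` is almost invariant as soon as every single point is almost surely outside `T`. -/
theorem almost_inv {m : (G κ →ᵇ ℝ) → ℝ} (hm : m ∈ InvMean (G κ))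
    (hβ : ∀ β, m (ind {x : G κ | β ∈ top x.2}) ≤ 0) (γ : G κ) :
    m (ind {x : G κ | ¬ (x + γ ∈ CC κ ↔ x ∈ CC κ)}) = 0 := by
  have h0 : 0 ≤ m (ind {x : G κ | ¬ (x + γ ∈ CC κ ↔ x ∈ CC κ)}) := hm.1.2.1 _ (ind_nonneg _)
  have h1 : m (ind {x : G κ | ¬ (x + γ ∈ CC κ ↔ x ∈ CC κ)}) ≤
      m (ind {x : G κ | lev x.2 ≤ lev γ.2} +
        ∑ β ∈ γ.1.support, ind {x : G κ | β ∈ top x.2}) := by
    refine Mean.mono hm.1 fun x => ?_
    have e1 : (ind {x : G κ | lev x.2 ≤ lev γ.2} +
        ∑ β ∈ γ.1.support, ind {x : G κ | β ∈ top x.2}) x =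
        ind {x : G κ | lev x.2 ≤ lev γ.2} x +
        ∑ β ∈ γ.1.support, ind {x : G κ | β ∈ top x.2} x := by
      simp
    rw [e1]
    have hs : 0 ≤ ∑ β ∈ γ.1.support, ind {x : G κ | β ∈ top x.2} x :=
      Finset.sum_nonneg fun β _ => ind_nonneg _ _
    by_cases hx : x ∈ {x : G κ | lev x.2 ≤ lev γ.2}
    · rw [ind_of_mem hx]
      linarith [ind_le_one {x : G κ | ¬ (x + γ ∈ CC κ ↔ x ∈ CC κ)} x]
    · have hx' : lev γ.2 < lev x.2 := not_le.1 hx
      by_cases hy : ∃ β ∈ γ.1.support, β ∈ top x.2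
      · obtain ⟨β, hβ1, hβ2⟩ := hy
        have : (1 : ℝ) ≤ ∑ β ∈ γ.1.support, ind {x : G κ | β ∈ top x.2} x := by
          have h2 := Finset.single_le_sum (f := fun β => ind {x : G κ | β ∈ top x.2} x)
            (fun β _ => ind_nonneg _ _) hβ1
          have h3 : ind {x : G κ | β ∈ top x.2} x = 1 := ind_of_mem hβ2
          exact h3 ▸ h2
        linarith [ind_le_one {x : G κ | ¬ (x + γ ∈ CC κ ↔ x ∈ CC κ)} x,
          ind_nonneg {x : G κ | lev x.2 ≤ lev γ.2} x]
      · push Not at hy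
        have htop : top (x + γ).2 = top x.2 := by
          show top (x.2 + γ.2) = top x.2
          exact top_add fun p hp => lt_of_le_of_lt (le_lev hp) hx'
        have hsum : ∑ β ∈ top x.2, (x + γ).1 β = ∑ β ∈ top x.2, x.1 β := by
          refine Finset.sum_congr rfl fun β hβ => ?_
          have h2 : γ.1 β = 0 := by
            by_contra hne
            exact hy β (Finsupp.mem_support_iff.2 hne) hβ
          show (x.1 + γ.1) β = x.1 β
          rw [Finsupp.add_apply, h2, add_zero]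
        have hiff : (x + γ ∈ CC κ ↔ x ∈ CC κ) := by
          show (∑ β ∈ top (x + γ).2, (x + γ).1 β = 0) ↔ (∑ β ∈ top x.2, x.1 β = 0)
          rw [htop, hsum]
        have hnot : x ∉ {x : G κ | ¬ (x + γ ∈ CC κ ↔ x ∈ CC κ)} := fun h => h hiff
        rw [ind_of_notMem hnot]
        linarith [ind_nonneg {x : G κ | lev x.2 ≤ lev γ.2} x]
  have h2 : m (∑ β ∈ γ.1.support, ind {x : G κ | β ∈ top x.2}) =
      ∑ β ∈ γ.1.support, m (ind {x : G κ | β ∈ top x.2}) :=
    map_sum (IsLinearMap.mk' m hm.1.1) _ _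
  rw [hm.1.1.map_add, null_lev hm, h2, zero_add] at h1
  have h3 : ∑ β ∈ γ.1.support, m (ind {x : G κ | β ∈ top x.2}) ≤ 0 :=
    Finset.sum_nonpos fun β _ => hβ β
  linarith

/-- The weird mean. -/
theorem exists_weird (κ : Type*) [DecidableEq κ] [Uncountable κ] :
    ∃ m ∈ InvMean (G κ), m (ind (CC κ)) = 1 / 2 ∧
      (∀ γ, m (ind {x : G κ | ¬ (x + γ ∈ CC κ ↔ x ∈ CC κ)}) = 0) ∧
      ∀ G₀ : Set (G κ →ᵇ ℝ), G₀.Countable →
        ∃ ν ∈ Set.extremePoints ℝ (InvMean (G κ)), ∀ g ∈ G₀, ν g = m g := by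
  obtain ⟨m, h1, h2, h3⟩ := (FD κ).exists_generic
  have h1 : m ∈ InvMean (G κ) := h1
  refine ⟨m, h1, ?_, ?_, h3⟩
  · refine le_antisymm (h2 _ _ U_C) ?_
    have := h2 _ _ U_C'
    rw [h1.1.1.map_neg] at this
    linarith
  · exact almost_inv h1 fun β => h2 _ _ (U_mem β)

end MP06f7ba
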