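import Pool.Agent.H.MP_06f7ba_an.H93.Face

/-!
# MP_06f7ba_an : real means and invariant means on a discrete group
-/

namespace MP06f7ba

open Set Filter Topology BoundedContinuousFunction

section General

variable {Γ : Type*} [TopologicalSpace Γ]

/-- the (real) means on `Γ →ᵇ ℝ`, as plain functionals. -/
def Mean (Γ : Type*) [TopologicalSpace Γ] : Set ((Γ →ᵇ ℝ) → ℝ) :=
  {ν | IsLinearMap ℝ ν ∧ (∀ f : Γ →ᵇ ℝ, (∀ x, 0 ≤ f x) → 0 ≤ ν f) ∧ ν 1 = 1}

theorem Mean.mono {ν : (Γ →ᵇ ℝ) → ℝ} (hν : ν ∈ Mean Γ) {f g : Γ →ᵇ ℝ} (h : ∀ x, f x ≤ g x) :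
    ν f ≤ ν g := by
  have h1 := hν.2.1 (g - f) (fun x => by
    rw [BoundedContinuousFunction.sub_apply]
    linarith [h x])
  rw [hν.1.map_sub] at h1
  linarith

theorem Mean.const {ν : (Γ →ᵇ ℝ) → ℝ} (hν : ν ∈ Mean Γ) (c : ℝ) :
    ν (BoundedContinuousFunction.const Γ c) = c := by
  have h1 : BoundedContinuousFunction.const Γ c = c • (1 : Γ →ᵇ ℝ) := by
    ext x
    simp
  rw [h1, hν.1.map_smul, hν.2.2, smul_eq_mul, mul_one]

theorem Mean.le_of_le {ν : (Γ →ᵇ ℝ) → ℝ} (hν : ν ∈ Mean Γ) {f : Γ →ᵇ ℝ} {c : ℝ}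
    (h : ∀ x, f x ≤ c) : ν f ≤ c := by
  have h1 := Mean.mono hν (f := f) (g := BoundedContinuousFunction.const Γ c) h
  rwa [Mean.const hν] at h1

theorem Mean.ge_of_ge {ν : (Γ →ᵇ ℝ) → ℝ} (hν : ν ∈ Mean Γ) {f : Γ →ᵇ ℝ} {c : ℝ}
    (h : ∀ x, c ≤ f x) : c ≤ ν f := by
  have h1 := Mean.mono hν (f := BoundedContinuousFunction.const Γ c) (g := f) h
  rwa [Mean.const hν] at h1

theorem Mean.abs_le {ν : (Γ →ᵇ ℝ) → ℝ} (hν : ν ∈ Mean Γ) (f : Γ →ᵇ ℝ) : |ν f| ≤ ‖f‖ := by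
  rw [_root_.abs_le]
  constructor
  · exact Mean.ge_of_ge hν fun x => (_root_.abs_le.1 (f.norm_coe_le_norm x)).1
  · exact Mean.le_of_le hν fun x => (_root_.abs_le.1 (f.norm_coe_le_norm x)).2

/-- Cauchy-Schwarz. -/
theorem Mean.sq_le {ν : (Γ →ᵇ ℝ) → ℝ} (hν : ν ∈ Mean Γ) (f : Γ →ᵇ ℝ) :
    (ν f) ^ 2 ≤ ν (f * f) := by
  have h1 := hν.2.1 ((f - BoundedContinuousFunction.const Γ (ν f)) *
    (f - BoundedContinuousFunction.const Γ (ν f))) (fun x => by
      rw [BoundedContinuousFunction.mul_apply]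
      exact mul_self_nonneg _)
  have h2 : (f - BoundedContinuousFunction.const Γ (ν f)) *
    (f - BoundedContinuousFunction.const Γ (ν f)) = f * f - (2 * ν f) • f +
      BoundedContinuousFunction.const Γ (ν f ^ 2) := by
    ext x
    simp
    ring
  rw [h2, hν.1.map_add, hν.1.map_sub, hν.1.map_smul, Mean.const hν, smul_eq_mul] at h1
  nlinarith

theorem isClosed_Mean : IsClosed (Mean Γ) := by
  have h1 : Mean Γ = {ν : (Γ →ᵇ ℝ) → ℝ | IsLinearMap ℝ ν} ∩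
      ({ν : (Γ →ᵇ ℝ) → ℝ | ∀ f : Γ →ᵇ ℝ, (∀ x, 0 ≤ f x) → 0 ≤ ν f} ∩
        {ν : (Γ →ᵇ ℝ) → ℝ | ν 1 = 1}) := rfl
  rw [h1]
  refine isClosed_linear.inter (IsClosed.inter ?_ ?_)
  · simp only [Set.ofPred_forall]
    exact isClosed_iInter fun f => isClosed_iInter fun _ =>
      isClosed_le continuous_const (continuous_apply f)
  · exact isClosed_eq (continuous_apply _) continuous_const

theorem isCompact_Mean : IsCompact (Mean Γ) :=
  isCompact_box.of_isClosed_subset isClosed_Mean fun _ hν f => Mean.abs_le hν f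

end General

section Group

variable {Γ : Type*} [AddCommGroup Γ] [TopologicalSpace Γ] [DiscreteTopology Γ]

/-- translation `(τ γ f) x = f (x + γ)`. -/
noncomputable def tr (γ : Γ) (f : Γ →ᵇ ℝ) : Γ →ᵇ ℝ :=
  f.compContinuous ⟨fun x => x + γ, continuous_of_discreteTopology⟩

@[simp] theorem tr_apply (γ : Γ) (f : Γ →ᵇ ℝ) (x : Γ) : tr γ f x = f (x + γ) := rfl

/-- the invariant (real) means. -/
def InvMean (Γ : Type*) [AddCommGroup Γ] [TopologicalSpace Γ] [DiscreteTopology Γ] :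
    Set ((Γ →ᵇ ℝ) → ℝ) :=
  {ν | ν ∈ Mean Γ ∧ ∀ γ f, ν (tr γ f) = ν f}

/-- indicator functions. -/
noncomputable def ind (A : Set Γ) : Γ →ᵇ ℝ :=
  BoundedContinuousFunction.ofNormedAddCommGroupDiscrete (A.indicator 1) 1 (by
    intro x
    by_cases h : x ∈ A
    · simp [Set.indicator_of_mem h]
    · simp [Set.indicator_of_notMem h])

omit [AddCommGroup Γ] in
theorem ind_apply (A : Set Γ) (x : Γ) : ind A x = A.indicator 1 x := rfl

omit [AddCommGroup Γ] in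
theorem ind_of_mem {A : Set Γ} {x : Γ} (h : x ∈ A) : ind A x = 1 := by
  rw [ind_apply, Set.indicator_of_mem h]; rfl

omit [AddCommGroup Γ] in
theorem ind_of_notMem {A : Set Γ} {x : Γ} (h : x ∉ A) : ind A x = 0 := by
  rw [ind_apply, Set.indicator_of_notMem h]

omit [AddCommGroup Γ] in
theorem ind_nonneg (A : Set Γ) (x : Γ) : 0 ≤ ind A x := by
  by_cases h : x ∈ A
  · rw [ind_of_mem h]; norm_num
  · rw [ind_of_notMem h]

omit [AddCommGroup Γ] in
theorem ind_le_one (A : Set Γ) (x : Γ) : ind A x ≤ 1 := by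
  by_cases h : x ∈ A
  · rw [ind_of_mem h]
  · rw [ind_of_notMem h]; norm_num

/-- invariant means are saturated. -/
theorem InvMean.sat {Λ : (Γ →ᵇ ℝ) → ℝ} (hΛ : IsLinearMap ℝ Λ)
    (h : ∀ g c, (∀ ν ∈ InvMean Γ, ν g ≤ c) → Λ g ≤ c) : Λ ∈ InvMean Γ := by
  refine ⟨⟨hΛ, ?_, ?_⟩, ?_⟩
  · intro f hf
    have := h (-f) 0 (fun ν hν => by
      rw [hν.1.1.map_neg]
      linarith [hν.1.2.1 f hf])
    rw [hΛ.map_neg] at this
    linarith
  · refine le_antisymm (h 1 1 fun ν hν => hν.1.2.2.le) ?_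
    have := h (-1) (-1) (fun ν hν => by rw [hν.1.1.map_neg, hν.1.2.2])
    rw [hΛ.map_neg] at this
    linarith
  · intro γ f
    have h1 := h (tr γ f - f) 0 (fun ν hν => by rw [hν.1.1.map_sub, hν.2 γ f, sub_self])
    have h2 := h (f - tr γ f) 0 (fun ν hν => by rw [hν.1.1.map_sub, hν.2 γ f, sub_self])
    rw [hΛ.map_sub] at h1 h2
    linarith

theorem isClosed_InvMean : IsClosed (InvMean Γ) := by
  have h1 : InvMean Γ = Mean Γ ∩ {ν : (Γ →ᵇ ℝ) → ℝ | ∀ γ f, ν (tr γ f) = ν f} := rfl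
  rw [h1]
  refine isClosed_Mean.inter ?_
  simp only [Set.ofPred_forall]
  exact isClosed_iInter fun γ => isClosed_iInter fun f =>
    isClosed_eq (continuous_apply _) (continuous_apply _)

/-- averaging over a finite subgroup. -/
noncomputable def avg (H : AddSubgroup Γ) [Fintype H] (f : Γ →ᵇ ℝ) : Γ →ᵇ ℝ :=
  (Fintype.card H : ℝ)⁻¹ • ∑ h : H, tr (h : Γ) f

theorem avg_apply (H : AddSubgroup Γ) [Fintype H] (f : Γ →ᵇ ℝ) (x : Γ) :
    avg H f x = (Fintype.card H : ℝ)⁻¹ * ∑ h : H, f (x + h) := by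
  simp [avg]

omit [TopologicalSpace Γ] [DiscreteTopology Γ] in
theorem card_ne_zero' (H : AddSubgroup Γ) [Fintype H] : (Fintype.card H : ℝ) ≠ 0 := by
  exact_mod_cast Fintype.card_ne_zero

/-- averages preserve invariant means. -/
theorem InvMean.avg_eq {ν : (Γ →ᵇ ℝ) → ℝ} (hν : ν ∈ InvMean Γ) (H : AddSubgroup Γ) [Fintype H]
    (f : Γ →ᵇ ℝ) : ν (avg H f) = ν f := by
  have h1 : ν (∑ h : H, tr (h : Γ) f) = ∑ h : H, ν (tr (h : Γ) f) :=
    map_sum (IsLinearMap.mk' ν hν.1.1) _ _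
  rw [avg, hν.1.1.map_smul, h1]
  simp only [hν.2]
  rw [Finset.sum_const, Finset.card_univ, nsmul_eq_mul, smul_eq_mul, ← mul_assoc,
    inv_mul_cancel₀ (card_ne_zero' H), one_mul]

/-- Empirical means. -/
theorem emp_mem (H : AddSubgroup Γ) [Fintype H] (x : Γ) :
    (fun f : Γ →ᵇ ℝ => avg H f x) ∈ Mean Γ := by
  refine ⟨⟨?_, ?_⟩, ?_, ?_⟩
  · intro f g
    simp only [avg_apply, BoundedContinuousFunction.add_apply, Finset.sum_add_distrib]
    ring
  · intro c f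
    simp only [avg_apply, BoundedContinuousFunction.smul_apply, smul_eq_mul, ← Finset.mul_sum]
    ring
  · intro f hf
    simp only [avg_apply]
    have : 0 ≤ ∑ h : H, f (x + h) := Finset.sum_nonneg fun h _ => hf _
    positivity
  · have h1 : ∀ y : Γ, (1 : Γ →ᵇ ℝ) y = 1 := fun _ => rfl
    simp only [avg_apply, h1, Finset.sum_const, Finset.card_univ, nsmul_eq_mul, mul_one]
    exact inv_mul_cancel₀ (card_ne_zero' H)

/-- averages kill translations from the subgroup. -/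
theorem avg_tr (H : AddSubgroup Γ) [Fintype H] (f : Γ →ᵇ ℝ) {γ : Γ} (hγ : γ ∈ H) :
    avg H (tr γ f) = avg H f := by
  ext x
  rw [avg_apply, avg_apply]
  congr 1
  simp only [tr_apply]
  refine Fintype.sum_equiv (Equiv.addRight (⟨γ, hγ⟩ : H)) _ _ fun h => ?_
  simp [add_assoc]

/-- A system of finite subgroups. -/
structure FinSys (Γ : Type*) [AddCommGroup Γ] where
  H : Finset Γ → AddSubgroup Γ
  fin : ∀ S, Fintype (H S)
  mem : ∀ S, ∀ γ ∈ S, γ ∈ H S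

attribute [instance] FinSys.fin

/-- The ultrafilter along which limits are taken. -/
noncomputable def 𝒰 (Γ : Type*) [AddCommGroup Γ] : Ultrafilter (Finset Γ) :=
  Ultrafilter.of Filter.atTop

omit [TopologicalSpace Γ] [DiscreteTopology Γ] in
theorem 𝒰_le : (𝒰 Γ : Filter (Finset Γ)) ≤ atTop := Ultrafilter.of_le _

omit [TopologicalSpace Γ] [DiscreteTopology Γ] in
theorem eventually_mem (γ : Γ) : ∀ᶠ S in (𝒰 Γ : Filter (Finset Γ)), γ ∈ S := by
  refine 𝒰_le ?_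
  filter_upwards [eventually_ge_atTop ({γ} : Finset Γ)] with S hS
  exact hS (Finset.mem_singleton_self γ)

/-- Limits of empirical means are invariant means. -/
theorem exists_limit (Sy : FinSys Γ) (x : Finset Γ → Γ) :
    ∃ ν ∈ InvMean Γ, ∀ f : Γ →ᵇ ℝ,
      Tendsto (fun S => avg (Sy.H S) f (x S)) (𝒰 Γ) (𝓝 (ν f)) := by
  let emp : Finset Γ → ((Γ →ᵇ ℝ) → ℝ) := fun S f => avg (Sy.H S) f (x S)
  have hemp : ∀ S, emp S ∈ Mean Γ := fun S => emp_mem (Sy.H S) (x S)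
  obtain ⟨ν, hν, hlim⟩ := isCompact_Mean.ultrafilter_le_nhds (Ultrafilter.map emp (𝒰 Γ)) (by
    rw [Filter.le_principal_iff]
    exact Filter.mem_map.2 (Filter.Eventually.of_forall hemp))
  have htend : Tendsto emp (𝒰 Γ) (𝓝 ν) := hlim
  rw [tendsto_pi_nhds] at htend
  refine ⟨ν, ⟨hν, ?_⟩, htend⟩
  intro γ f
  refine tendsto_nhds_unique (htend (tr γ f)) ((htend f).congr' ?_)
  filter_upwards [eventually_mem γ] with S hS
  exact congrArg (fun g : Γ →ᵇ ℝ => g (x S)) (avg_tr (Sy.H S) f (Sy.mem S γ hS)).symm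

end Group

end MP06f7ba
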