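import Pool.Agent.H.MP_06f7ba_an.H93.Group
import Pool.Agent.H.MP_06f7ba_an.H93.Erg

/-!
# MP_06f7ba_an : the main theorem on the real side
-/

namespace MP06f7ba

open Set Filter Topology BoundedContinuousFunction MeasureTheory

/-- The main theorem on the real side. -/
theorem real_main (κ : Type*) [DecidableEq κ] [Uncountable κ] :
    ∃ (m : (G κ →ᵇ ℝ) → ℝ) (μ₀ : Measure (MS (G κ))), m ∈ InvMean (G κ) ∧
      IsProbabilityMeasure μ₀ ∧ (∀ᵐ ν ∂μ₀, ν.val ∈ InvMean (G κ)) ∧
      (∀ f, ∫ ν, ν.val f ∂μ₀ = m f) ∧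
      (∀ G₀ : Set (G κ →ᵇ ℝ), G₀.Countable →
        ∀ᵐ ν ∂μ₀, ∃ ν' ∈ Set.extremePoints ℝ (InvMean (G κ)), ∀ g ∈ G₀, ν' g = ν.val g) ∧
      (∀ f, ∫ ν in {ν | ν.val (ind (CC κ)) = 1 / 2}, ν.val f ∂μ₀ = 1 / 2 * m f) := by
  obtain ⟨m, hm, hmC, hinv, hext⟩ := exists_weird κ
  obtain ⟨μ, h1, h2, h3⟩ := exists_repr (sys κ) hm
  have hR : Repr (sys κ) m μ := ⟨h1, h2, hm, h3⟩
  let m' : MS (G κ) := ⟨m, hm.1⟩
  have hm'v : m'.val = m := rfl
  let c : ENNReal := 2⁻¹
  have hc : c ≠ ⊤ := by simp [c]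
  have hcc : c + c = 1 := ENNReal.inv_two_add_inv_two
  have hcr : c.toReal = 1 / 2 := by simp [c]
  let μ₀ : Measure (MS (G κ)) := c • Measure.dirac m' + c • μ
  have hint : ∀ f : G κ →ᵇ ℝ, Integrable (fun ν : MS (G κ) => ν.val f) (Measure.dirac m') :=
    fun f => integrable_of_cont (MS.ev f)
  have hint2 : ∀ f : G κ →ᵇ ℝ, Integrable (fun ν : MS (G κ) => ν.val f) μ :=
    fun f => integrable_of_cont (MS.ev f)
  have hcomb' : ∀ (p : MS (G κ) → Prop), (∀ᵐ ν ∂μ, p ν) → p m' → ∀ᵐ ν ∂μ₀, p ν := by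
    intro p hp1 hp2
    rw [ae_iff]
    show (c • Measure.dirac m' + c • μ) _ = 0
    rw [Measure.add_apply, Measure.smul_apply, Measure.smul_apply, ae_iff.1 hp1]
    have : (Measure.dirac m') {ν | ¬ p ν} = 0 := by
      have hsub : {ν | ¬ p ν} ⊆ {m'}ᶜ := by
        intro ν hν hν2
        rw [Set.mem_singleton_iff] at hν2
        subst hν2
        exact hν hp2
      refine measure_mono_null hsub ?_
      rw [Measure.dirac_apply' _ (measurableSet_singleton m').compl]
      simp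
    rw [this]
    simp
  refine ⟨m, μ₀, hm, ?_, ?_, ?_, ?_, ?_⟩
  · constructor
    show (c • Measure.dirac m' + c • μ) _ = 1
    rw [Measure.add_apply, Measure.smul_apply, Measure.smul_apply, measure_univ, measure_univ]
    simpa using hcc
  · exact hcomb' _ hR.ae_inv hm
  · intro f
    show ∫ ν, ν.val f ∂(c • Measure.dirac m' + c • μ) = m f
    rw [integral_add_measure ((hint f).smul_measure hc) ((hint2 f).smul_measure hc),
      integral_smul_measure, integral_smul_measure, hR.integral_ev, integral_dirac, hcr, hm'v]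
    simp only [smul_eq_mul]
    ring
  · intro G₀ hG₀
    exact hcomb' _ (hR.ae_ext G₀ hG₀) (hext G₀ hG₀)
  · intro f
    show ∫ ν in {ν | ν.val (ind (CC κ)) = 1 / 2}, ν.val f ∂(c • Measure.dirac m' + c • μ) = _
    rw [Measure.restrict_add, Measure.restrict_smul, Measure.restrict_smul,
      integral_add_measure ((hint f).restrict.smul_measure hc) ((hint2 f).restrict.smul_measure hc),
      integral_smul_measure, integral_smul_measure]
    have e1 : μ {ν | ν.val (ind (CC κ)) = 1 / 2} = 0 := by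
      have h4 := hR.ae_zero_one (CC κ) hinv
      rw [ae_iff] at h4
      refine measure_mono_null ?_ h4
      intro ν hν
      have hν' : ν.val (ind (CC κ)) = 1 / 2 := hν
      show ¬ (ν.val (ind (CC κ)) = 0 ∨ ν.val (ind (CC κ)) = 1)
      rw [hν']
      norm_num
    have e2 : m' ∈ {ν : MS (G κ) | ν.val (ind (CC κ)) = 1 / 2} := hmC
    classical
    rw [Measure.restrict_eq_zero.2 e1, integral_zero_measure, setIntegral_dirac,
      if_pos e2, hcr, hm'v]
    simp

end MP06f7ba
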