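import Pool.Agent.H.MP_06f7ba_an.H93.Face

/-!
# MP_06f7ba_an : the fusion argument and the extreme points of `𝒟`
-/

namespace MP06f7ba

open Set Filter Topology

variable {V : Type*} [NormedAddCommGroup V] [NormedSpace ℝ V] {κ : Type*} [DecidableEq κ]

namespace FaceData

variable (X : FaceData V κ)

theorem fusion (G : Set V) (hG : G.Countable) :
    ∃ (R F : ℕ → Finset κ), Monotone R ∧ Monotone F ∧ (∀ n, Disjoint (R n) (F n)) ∧
      (∀ g ∈ G, ∀ c : ℚ, X.U g c → ∃ n, X.Bound g c (F n) (R n)) ∧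
      (∀ g ∈ G, ∀ c : ℚ, ¬ X.U g c → ∀ n, ¬ X.Bound g c (F n) (R n)) := by
  classical
  have hS : (insert (0 : V) G ×ˢ (Set.univ : Set ℚ)).Countable :=
    (hG.insert 0).prod Set.countable_univ
  obtain ⟨e, he⟩ := hS.exists_eq_range ⟨(0, 0), by simp⟩
  have hmem : ∀ g ∈ G, ∀ c : ℚ, ∃ n, e n = (g, c) := by
    intro g hg c
    have : (g, c) ∈ Set.range e := by
      rw [← he]
      exact ⟨Set.mem_insert_of_mem _ hg, trivial⟩
    exact this
  -- witnesses
  have hw : ∀ n, ∃ (w : Finset κ) (k : ℕ), X.U (e n).1 (e n).2 →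
      Tr (X.Bound (e n).1 (e n).2 w) k ∅ := by
    intro n
    by_cases h : X.U (e n).1 (e n).2
    · obtain ⟨F, k, hk⟩ := h
      exact ⟨F, k, fun _ => hk⟩
    · exact ⟨∅, 0, fun h' => absurd h' h⟩
  choose w kk hwk using hw
  let F : ℕ → Finset κ := fun n => (Finset.range n).biUnion w
  have hFmono : Monotone F := fun m n hmn =>
    Finset.biUnion_subset_biUnion_of_subset_left _ (Finset.range_mono hmn)
  let Inv : Finset κ → Prop := fun R => (∀ n, Disjoint R (F n)) ∧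
    ∀ n j k, ¬ X.U (e j).1 (e j).2 → ¬ Tr (X.Bound (e j).1 (e j).2 (F n)) k R
  have hInv : ∀ R, Inv R → Set.Countable {α | ¬ Inv (insert α R)} := by
    rintro R ⟨h1, h2⟩
    have hc : Set.Countable ((⋃ n, (F n : Set κ)) ∪ ⋃ (n : ℕ), ⋃ (j : ℕ), ⋃ (k : ℕ),
        {α | ¬ X.U (e j).1 (e j).2 ∧ Tr (X.Bound (e j).1 (e j).2 (F n)) k (insert α R)}) := by
      refine (Set.countable_iUnion fun n => (F n).countable_toSet).union ?_
      refine Set.countable_iUnion fun n => Set.countable_iUnion fun j =>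
        Set.countable_iUnion fun k => ?_
      by_cases hU : X.U (e j).1 (e j).2
      · refine Set.countable_empty.mono ?_
        rintro α ⟨h, -⟩
        exact h hU
      · have := h2 n j (k + 1) hU
        simp only [Tr, not_not] at this
        exact this.mono fun α hα => hα.2
    refine hc.mono ?_
    intro α hα
    rw [Set.mem_ofPred_eq, not_and_or] at hα
    rcases hα with hα | hα
    · left
      push Not at hα
      obtain ⟨n, hn⟩ := hα
      rw [Finset.disjoint_insert_left, not_and_or, not_not] at hn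
      rcases hn with hn | hn
      · exact Set.mem_iUnion.2 ⟨n, hn⟩
      · exact absurd (h1 n) hn
    · right
      push Not at hα
      obtain ⟨n, j, k, h3, h4⟩ := hα
      simp only [Set.mem_iUnion]
      exact ⟨n, j, k, h3, h4⟩
  have hInv0 : Inv ∅ := by
    refine ⟨fun n => Finset.disjoint_empty_left _, fun n j k hU hT => hU ⟨F n, k, hT⟩⟩
  have hstep : ∀ (n : ℕ) (R : {R // Inv R}), ∃ R' : {R // Inv R}, R.1 ⊆ R'.1 ∧
      (X.U (e n).1 (e n).2 → X.Bound (e n).1 (e n).2 (w n) R'.1) := by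
    rintro n ⟨R, hR⟩
    by_cases hU : X.U (e n).1 (e n).2
    · have h1 : Tr (X.Bound (e n).1 (e n).2 (w n)) (kk n) R := by
        have := Tr_union (Φ := X.Bound (e n).1 (e n).2 (w n)) (Ψ := X.Bound (e n).1 (e n).2 (w n))
          R (fun S hS => X.Bound_mono subset_rfl Finset.subset_union_left hS) (kk n) ∅ (hwk n hU)
        rwa [Finset.empty_union] at this
      obtain ⟨R', h2, h3, h4⟩ := Tr_branch Inv hInv _ R hR h1
      exact ⟨⟨R', h3⟩, h2, fun _ => h4⟩
    · exact ⟨⟨R, hR⟩, subset_rfl, fun h => absurd h hU⟩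
  choose step hstep1 hstep2 using hstep
  let Rs : ℕ → {R // Inv R} := fun n => Nat.rec ⟨∅, hInv0⟩ (fun n R => step n R) n
  refine ⟨fun n => (Rs n).1, F, ?_, hFmono, fun n => (Rs n).2.1 n, ?_, ?_⟩
  · exact monotone_nat_of_le_succ fun n => hstep1 n (Rs n)
  · intro g hg c hU
    obtain ⟨n, hn⟩ := hmem g hg c
    refine ⟨n + 1, ?_⟩
    have h1 := hstep2 n (Rs n)
    rw [hn] at h1
    have h2 := h1 hU
    refine X.Bound_mono ?_ subset_rfl h2
    exact Finset.subset_biUnion_of_mem w (Finset.mem_range.2 (Nat.lt_succ_self n))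
  · intro g hg c hU n hB
    obtain ⟨j, hj⟩ := hmem g hg c
    have h1 := (Rs n).2.2 n j 0
    rw [hj] at h1
    exact h1 hU hB

/-- The intersection of a fused family of faces. -/
def Dinf (R F : ℕ → Finset κ) : Set (V → ℝ) := ⋂ n, X.D (R n) (F n)

theorem isCompact_Dinf (R F : ℕ → Finset κ) : IsCompact (X.Dinf R F) :=
  (X.isCompact_D (R 0) (F 0)).of_isClosed_subset
    (isClosed_iInter fun n => X.isClosed_D (R n) (F n)) (Set.iInter_subset _ 0)

theorem Dinf_subset (R F : ℕ → Finset κ) : X.Dinf R F ⊆ X.K :=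
  (Set.iInter_subset _ 0).trans (X.D_subset _ _)

theorem Dinf_face {R F : ℕ → Finset κ} {ν μ : V → ℝ} (hν : ν ∈ X.K) (hμ : μ ∈ X.K) {s t : ℝ}
    (hs : 0 < s) (ht : 0 < t) (hst : s + t = 1) (h : s • ν + t • μ ∈ X.Dinf R F) :
    ν ∈ X.Dinf R F ∧ μ ∈ X.Dinf R F := by
  simp only [Dinf, Set.mem_iInter] at h ⊢
  exact ⟨fun n => (X.D_face hν hμ hs ht hst (h n)).1, fun n => (X.D_face hν hμ hs ht hst (h n)).2⟩

theorem Dinf_sat {R F : ℕ → Finset κ} {Λ : V → ℝ} (hΛ : IsLinearMap ℝ Λ)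
    (h : ∀ g c, (∀ ν ∈ X.Dinf R F, ν g ≤ c) → Λ g ≤ c) : Λ ∈ X.Dinf R F := by
  simp only [Dinf, Set.mem_iInter]
  intro n
  refine X.D_sat hΛ fun g c hc => h g c fun ν hν => hc ν ?_
  exact Set.mem_iInter.1 hν n

/-- Compactness: a strict upper bound on `Dinf` holds on some `D (R n) (F n)`. -/
theorem exists_bound_of_Dinf {R F : ℕ → Finset κ} (hR : Monotone R) (hF : Monotone F)
    {g : V} {c : ℝ} (h : ∀ ν ∈ X.Dinf R F, ν g < c) : ∃ n, X.Bound g c (F n) (R n) := by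
  by_contra hcon
  simp only [not_exists] at hcon
  have hne : (⋂ n, (X.D (R n) (F n) ∩ {ν : V → ℝ | c ≤ ν g})).Nonempty := by
    refine IsCompact.nonempty_iInter_of_sequence_nonempty_isCompact_isClosed _ ?_ ?_ ?_ ?_
    · intro n
      exact Set.inter_subset_inter_left _ (X.D_anti (hR (Nat.le_succ n)) (hF (Nat.le_succ n)))
    · intro n
      have := hcon n
      simp only [Bound, not_forall] at this
      obtain ⟨ν, hν, h2⟩ := this
      exact ⟨ν, hν, (not_le.1 h2).le⟩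
    · exact (X.isCompact_D (R 0) (F 0)).inter_right
        (isClosed_le continuous_const (continuous_apply g))
    · intro n
      exact (X.isClosed_D (R n) (F n)).inter
        (isClosed_le continuous_const (continuous_apply g))
  obtain ⟨ν, hν⟩ := hne
  rw [Set.mem_iInter] at hν
  have h1 : ν ∈ X.Dinf R F := Set.mem_iInter.2 fun n => (hν n).1
  exact absurd (hν 0).2 (not_le.2 (h ν h1))

variable [Uncountable κ]

/-- **Lemma B.** Elements of `Dinf` agree on `G` with elements of `𝒟`. -/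
theorem lemmaB {G : Set V} (h0 : (0 : V) ∈ G) (hGadd : ∀ x ∈ G, ∀ y ∈ G, x + y ∈ G)
    (hGsmul : ∀ (r : ℚ), ∀ x ∈ G, (r : ℝ) • x ∈ G) {R F : ℕ → Finset κ}
    (hub : ∀ g ∈ G, ∀ c : ℚ, X.U g c → ∃ n, X.Bound g c (F n) (R n))
    {ν : V → ℝ} (hν : ν ∈ X.Dinf R F) : ∃ Λ ∈ X.𝒟, ∀ g ∈ G, Λ g = ν g := by
  have hνK := X.Dinf_subset R F hν
  obtain ⟨Λ, h1, h2, h3⟩ := hahnBanach_rat X.q (fun c hc x => X.q_smul hc x) X.q_add X.q_le_norm
    G h0 hGadd hGsmul ν (X.lin ν hνK) (X.bdd ν hνK) (by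
      intro g hg
      by_contra hcon
      push Not at hcon
      obtain ⟨c, hc1, hc2⟩ := exists_rat_btwn hcon
      obtain ⟨n, hn⟩ := hub g hg c (X.U_of_q_lt hc1)
      have := hn ν (Set.mem_iInter.1 hν n)
      linarith)
  exact ⟨Λ, X.mem_𝒟_of_le_q h1 h2, h3⟩

omit [Uncountable κ] in
/-- **Lemma A.** Elements of `𝒟` agree on `G` with elements of `Dinf`. -/
theorem lemmaA {G : Set V} (h0 : (0 : V) ∈ G) (hGadd : ∀ x ∈ G, ∀ y ∈ G, x + y ∈ G)
    (hGsmul : ∀ (r : ℚ), ∀ x ∈ G, (r : ℝ) • x ∈ G) {R F : ℕ → Finset κ}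
    (hR : Monotone R) (hF : Monotone F) (hRF : ∀ n, Disjoint (R n) (F n))
    (hlb : ∀ g ∈ G, ∀ c : ℚ, ¬ X.U g c → ∀ n, ¬ X.Bound g c (F n) (R n))
    {m : V → ℝ} (hm : m ∈ X.𝒟) : ∃ ν ∈ X.Dinf R F, ∀ g ∈ G, ν g = m g := by
  have hmK := X.𝒟_subset hm
  have hDne : (X.Dinf R F).Nonempty := by
    refine IsCompact.nonempty_iInter_of_sequence_nonempty_isCompact_isClosed _ ?_ ?_ ?_ ?_
    · exact fun n => X.D_anti (hR (Nat.le_succ n)) (hF (Nat.le_succ n))
    · intro n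
      obtain ⟨ν, h1, h2⟩ := X.ne _ _ (hRF n)
      exact ⟨ν, h1, h2⟩
    · exact X.isCompact_D _ _
    · exact fun n => X.isClosed_D _ _
  -- the support function of `Dinf`
  let p : V → ℝ := fun g => sSup ((fun ν : V → ℝ => ν g) '' X.Dinf R F)
  have hpne : ∀ g, ((fun ν : V → ℝ => ν g) '' X.Dinf R F).Nonempty := fun g => hDne.image _
  have hpbd : ∀ g, BddAbove ((fun ν : V → ℝ => ν g) '' X.Dinf R F) := by
    intro g
    refine ⟨‖g‖, ?_⟩
    rintro _ ⟨ν, hν, rfl⟩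
    exact (abs_le.1 (X.bdd ν (X.Dinf_subset R F hν) g)).2
  have hle : ∀ g, ∀ ν ∈ X.Dinf R F, ν g ≤ p g := fun g ν hν => le_csSup (hpbd g) ⟨ν, hν, rfl⟩
  have hpadd : ∀ g h, p (g + h) ≤ p g + p h := by
    intro g h
    refine csSup_le (hpne _) ?_
    rintro _ ⟨ν, hν, rfl⟩
    simp only [(X.lin ν (X.Dinf_subset R F hν)).map_add]
    exact add_le_add (hle g ν hν) (hle h ν hν)
  have hpsmul' : ∀ c : ℝ, 0 < c → ∀ g, p (c • g) ≤ c * p g := by
    intro c hc g
    refine csSup_le (hpne _) ?_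
    rintro _ ⟨ν, hν, rfl⟩
    simp only [(X.lin ν (X.Dinf_subset R F hν)).map_smul, smul_eq_mul]
    exact mul_le_mul_of_nonneg_left (hle g ν hν) hc.le
  have hpsmul : ∀ c : ℝ, 0 < c → ∀ g, p (c • g) = c * p g := by
    intro c hc g
    refine le_antisymm (hpsmul' c hc g) ?_
    have h := hpsmul' c⁻¹ (inv_pos.2 hc) (c • g)
    rw [smul_smul, inv_mul_cancel₀ hc.ne', one_smul] at h
    have h3 : c * p g ≤ c * (c⁻¹ * p (c • g)) := mul_le_mul_of_nonneg_left h hc.le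
    rwa [← mul_assoc, mul_inv_cancel₀ hc.ne', one_mul] at h3
  have hpnorm : ∀ g, p g ≤ ‖g‖ := by
    intro g
    refine csSup_le (hpne _) ?_
    rintro _ ⟨ν, hν, rfl⟩
    exact (abs_le.1 (X.bdd ν (X.Dinf_subset R F hν) g)).2
  obtain ⟨Λ, h1, h2, h3⟩ := hahnBanach_rat p hpsmul hpadd hpnorm
    G h0 hGadd hGsmul m (X.lin m hmK) (X.bdd m hmK) (by
      intro g hg
      by_contra hcon
      push Not at hcon
      obtain ⟨c, hc1, hc2⟩ := exists_rat_btwn hcon
      have h4 : ∀ ν ∈ X.Dinf R F, ν g < c := fun ν hν => (hle g ν hν).trans_lt hc1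
      obtain ⟨n, hn⟩ := X.exists_bound_of_Dinf hR hF h4
      by_cases hU : X.U g c
      · have := hm.2 g c hU
        linarith
      · exact hlb g hg c hU n hn)
  refine ⟨Λ, X.Dinf_sat h1 fun g c hc => (h2 g).trans ?_, h3⟩
  refine csSup_le (hpne _) ?_
  rintro _ ⟨ν, hν, rfl⟩
  exact hc ν hν

end FaceData

end MP06f7ba
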